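import Mathlib
import Pool.Agent.NPC.Num

/-!
# A polynomial-size list of candidate primitive roots

`cands A C p` is the explicit list attached to a number `p`.  With `n = size p` (number of binary
digits), `Y = n ^ A`, `L = n ^ C` it consists of the residues modulo `p`
`small * (∏_{i < Y} (i + 1) ^ (a ^ i)) ^ (∏_{d ≤ L} d ^ n)`, `a < L`, where `small` takes care of the
prime factors `l ≤ L` of `p - 1`.
-/

namespace Pool.Agent.H595R2.PR

/-- reduction modulo `p` (with `0` replaced by `1`) -/
def md (p x : ℕ) : ℕ := x % (max p 1)

/-- `b ^ e` modulo `p`, by repeated squaring -/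
def pw (p b e : ℕ) : ℕ :=
  e.bits.foldr (fun c acc => if c then md p (acc * acc * b) else md p (acc * acc)) (md p 1)

/-- divide `k` times by `l`, as long as this is possible -/
def strip (l k N : ℕ) : ℕ := (fun m => if m % l = 0 then m / l else m)^[k] N

/-- `∏_{i < Y} (i + 1) ^ (a ^ i)` modulo `p`, by Horner's rule -/
def horner (p Y a : ℕ) : ℕ :=
  (List.range Y).foldr (fun i acc => md p ((i + 1) * pw p acc a)) (md p 1)

/-- the power with exponent `∏_{d ≤ L} d ^ n` -/
def kill (p n L x : ℕ) : ℕ :=
  (List.range L).foldl (fun x d => (fun z => pw p z (d + 1))^[n] x) x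

/-- is the order of `x` (a power of `l`) larger than the order of `b`? -/
def better (p n l b x : ℕ) : Bool :=
  (List.range (n + 1)).any fun k =>
    decide ((fun z => pw p z l)^[k] b = md p 1) && !decide ((fun z => pw p z l)^[k] x = md p 1)

/-- a number among `x ^ (N / l ^ ∞)`, `1 ≤ x ≤ Y`, `N = p - 1`, of maximal order -/
def best (p n Y l : ℕ) : ℕ :=
  ((List.range Y).map fun i => pw p (i + 1) (strip l n (p - 1))).foldl
    (fun b x => if better p n l b x then x else b) (md p 1)

/-- primality by trial division -/
def isPr (l : ℕ) : Bool :=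
  decide (2 ≤ l) && (List.range l).all fun d => decide (d ≤ 1) || !decide (l % d = 0)

/-- the part for the small primes -/
def small (p n L Y : ℕ) : ℕ :=
  (List.range (L + 1)).foldl (fun acc l => if isPr l then md p (acc * best p n Y l) else acc)
    (md p 1)

/-- the candidate with index `a` -/
def cand (p n L Y a : ℕ) : ℕ := md p (small p n L Y * kill p n L (horner p Y a))

/-- the list of candidates -/
def cands (A C p : ℕ) : List ℕ :=
  (List.range (p.size ^ C)).map (cand p p.size (p.size ^ C) (p.size ^ A))

end Pool.Agent.H595R2.PR
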