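import Mathlib
import Pool.Agent.H595R2.PR.Defs

/-! # ALG: all but few candidates have maximal order -/

namespace Pool.Agent.H595R2.PR

open Finset

section facts

set_option linter.unusedSectionVars false

variable {G : Type} [CommGroup G] [Finite G] [IsCyclic G] (Γ : Subgroup G)

theorem ALG_pow_card {x : G} (hx : x ∈ Γ) : x ^ Nat.card Γ = 1 := by
  have h1 : (⟨x, hx⟩ : Γ) ^ Nat.card Γ = 1 := pow_card_eq_one'
  exact congrArg (Subtype.val) h1

theorem ALG_dvd {k : ℕ} (h : ∀ x ∈ Γ, x ^ k = 1) : Nat.card Γ ∣ k := by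
  rw [← IsCyclic.exponent_eq_card (α := Γ)]
  rw [Monoid.exponent_dvd_iff_forall_pow_eq_one]
  intro g
  apply Subtype.ext
  simpa using h g.1 g.2

theorem ALG_closure {t : ℕ → G} {m k : ℕ} (hΓ : Γ = Subgroup.closure (t '' Set.Iio m))
    (h : ∀ i < m, t i ^ k = 1) : ∀ x ∈ Γ, x ^ k = 1 := by
  have h1 : Γ ≤ (powMonoidHom k : G →* G).ker := by
    rw [hΓ, Subgroup.closure_le]
    rintro _ ⟨i, hi, rfl⟩
    exact h i hi
  intro x hx
  exact h1 hx

/-- in a cyclic group the elements of exponent `l` are powers of a nontrivial one -/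
theorem ALG_powers {l : ℕ} (hl : l.Prime) {z z' : G} (hz : z ^ l = 1) (hz1 : z ≠ 1)
    (hz' : z' ^ l = 1) : ∃ k : ℕ, z ^ k = z' := by
  classical
  cases nonempty_fintype G
  have : Fact l.Prime := ⟨hl⟩
  have ho : orderOf z = l := orderOf_eq_prime hz hz1
  have h1 : (range l).image (fun k => z ^ k) = univ.filter (fun a : G => a ^ l = 1) := by
    refine eq_of_subset_of_card_le ?_ ?_
    · intro a ha
      rw [mem_image] at ha
      obtain ⟨k, -, rfl⟩ := ha
      rw [mem_filter]
      refine ⟨mem_univ _, ?_⟩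
      rw [← pow_mul, mul_comm, pow_mul, hz, one_pow]
    · refine (IsCyclic.card_pow_eq_one_le hl.pos).trans ?_
      rw [card_image_of_injOn, card_range]
      intro i hi j hj hij
      have hi' : i ∈ Set.Iio (orderOf z) := by
        rw [ho]; exact mem_range.1 hi
      have hj' : j ∈ Set.Iio (orderOf z) := by
        rw [ho]; exact mem_range.1 hj
      exact pow_injOn_Iio_orderOf hi' hj' hij
  have h2 : z' ∈ (range l).image (fun k => z ^ k) := by
    rw [h1, mem_filter]
    exact ⟨mem_univ _, hz'⟩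
  rw [mem_image] at h2
  obtain ⟨k, -, hk⟩ := h2
  exact ⟨k, hk⟩

open Classical in
/-- few zeros -/
theorem ALG_bad {l m L : ℕ} (hl : l.Prime) (hL : L < l) (z : ℕ → G)
    (hz : ∀ i < m, z i ^ l = 1) (hz1 : ∃ i < m, z i ≠ 1) :
    #{a ∈ range L | ∏ i ∈ range m, z i ^ (a ^ i) = 1} ≤ m - 1 := by
  classical
  obtain ⟨i₀, hi₀, hne⟩ := hz1
  have hex : ∀ i, ∃ k : ℕ, i < m → z i₀ ^ k = z i := by
    intro i
    by_cases hi : i < m
    · obtain ⟨k, hk⟩ := ALG_powers hl (hz i₀ hi₀) hne (hz i hi)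
      exact ⟨k, fun _ => hk⟩
    · exact ⟨0, fun h => absurd h hi⟩
  choose y hy using hex
  let x : ℕ → ℕ := fun i => if i = i₀ then 1 else y i
  have hx : ∀ i < m, z i₀ ^ x i = z i := by
    intro i hi
    by_cases h : i = i₀
    · subst h
      simp [x]
    · simp only [x, if_neg h]
      exact hy i hi
  have : Fact l.Prime := ⟨hl⟩
  have ho : orderOf (z i₀) = l := orderOf_eq_prime (hz i₀ hi₀) hne
  let f : Polynomial (ZMod l) := ∑ i ∈ range m, Polynomial.C ((x i : ℕ) : ZMod l) * Polynomial.X ^ i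
  have hcoeff : ∀ j, f.coeff j = if j < m then ((x j : ℕ) : ZMod l) else 0 := by
    intro j
    simp only [f, Polynomial.finsetSum_coeff, Polynomial.coeff_C_mul_X_pow]
    rw [sum_ite_eq (range m) j (fun i => ((x i : ℕ) : ZMod l))]
    simp only [mem_range]
  have hf0 : f ≠ 0 := by
    intro h
    have h1 := hcoeff i₀
    rw [h, if_pos hi₀] at h1
    simp [x] at h1
  have hdeg : f.natDegree ≤ m - 1 := by
    rw [Polynomial.natDegree_le_iff_coeff_eq_zero]
    intro N hN
    rw [hcoeff, if_neg (by omega)]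
  have hroot : ∀ a : ℕ, ∏ i ∈ range m, z i ^ (a ^ i) = 1 → f.IsRoot (a : ZMod l) := by
    intro a ha
    have h1 : ∏ i ∈ range m, z i ^ (a ^ i) = z i₀ ^ (∑ i ∈ range m, x i * a ^ i) := by
      rw [← prod_pow_eq_pow_sum]
      refine prod_congr rfl ?_
      intro i hi
      rw [pow_mul, hx i (mem_range.1 hi)]
    rw [h1] at ha
    have h2 := orderOf_dvd_of_pow_eq_one ha
    rw [ho] at h2
    have h3 : ((∑ i ∈ range m, x i * a ^ i : ℕ) : ZMod l) = 0 :=
      (ZMod.natCast_eq_zero_iff _ _).2 h2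
    rw [Polynomial.IsRoot, Polynomial.eval_finsetSum]
    push_cast at h3
    simpa using h3
  have hcard : #{a ∈ range L | ∏ i ∈ range m, z i ^ (a ^ i) = 1} ≤ f.roots.toFinset.card := by
    refine card_le_card_of_injOn (fun a : ℕ => (a : ZMod l)) ?_ ?_
    · intro a ha
      have ha' := mem_filter.1 (mem_coe.1 ha)
      rw [mem_coe, Multiset.mem_toFinset, Polynomial.mem_roots hf0]
      exact hroot a ha'.2
    · intro a ha b hb hab
      have ha' := mem_range.1 (mem_filter.1 (mem_coe.1 ha)).1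
      have hb' := mem_range.1 (mem_filter.1 (mem_coe.1 hb)).1
      have h1 := (ZMod.natCast_eq_natCast_iff' a b l).1 hab
      rw [Nat.mod_eq_of_lt (by omega), Nat.mod_eq_of_lt (by omega)] at h1
      exact h1
  exact hcard.trans ((Multiset.toFinset_card_le _).trans ((Polynomial.card_roots' f).trans hdeg))

end facts

/-- ALG. In a finite cyclic group let `Γ` be generated by `t 0, …, t (m-1)`, `b l` of order
`l ^ v_l(|Γ|)` for the primes `l ≤ L`, and let the prime factors of `E` be `≤ L`, with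
`l ^ v_l(|Γ|) ∣ E`.  Then `(∏_{l ≤ L} b l) * (∏_i t i ^ (a ^ i)) ^ E` has order `|Γ|`
for all but `(m-1) * #{l > L : l ∣ |Γ|}` of the `a < L`. -/
theorem main_alg {G : Type} [CommGroup G] [Finite G] [IsCyclic G] (t : ℕ → G) (m L : ℕ)
    (Γ : Subgroup G) (hΓ : Γ = Subgroup.closure (t '' Set.Iio m)) (b : ℕ → G)
    (hb : ∀ l, l.Prime → l ≤ L → orderOf (b l) = l ^ (Nat.card Γ).factorization l)
    (E : ℕ) (hE : ∀ l, l.Prime → l ≤ L → l ^ (Nat.card Γ).factorization l ∣ E)
    (hE' : ∀ l, l.Prime → l ∣ E → l ≤ L) :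
    #{a ∈ range L | orderOf ((∏ l ∈ (range (L + 1)).filter Nat.Prime, b l) *
        (∏ i ∈ range m, t i ^ (a ^ i)) ^ E) ≠ Nat.card Γ} ≤
      (m - 1) * #{l ∈ (Nat.card Γ).primeFactors | L < l} := by
  classical
  set D := Nat.card Γ with hD
  have hDpos : 0 < D := Nat.card_pos
  have htΓ : ∀ i < m, t i ∈ Γ := by
    intro i hi
    rw [hΓ]
    exact Subgroup.subset_closure ⟨i, hi, rfl⟩
  -- powers of the `b l`
  have hb1 : ∀ l, l.Prime → l ≤ L → ∀ l₀, l₀.Prime → l₀ ∣ D → l ≠ l₀ → b l ^ (D / l₀) = 1 := by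
    intro l hl hlL l₀ hl₀ hd hne
    rw [← orderOf_dvd_iff_pow_eq_one, hb l hl hlL]
    have h1 : l ^ D.factorization l ∣ l₀ * (D / l₀) := by
      rw [Nat.mul_div_cancel' hd]
      exact Nat.ordProj_dvd D l
    refine Nat.Coprime.dvd_of_dvd_mul_left ?_ h1
    exact Nat.Coprime.pow_left _ ((Nat.coprime_primes hl hl₀).2 hne)
  have hb2 : ∀ l, l.Prime → l ≤ L → l ∣ D → b l ^ (D / l) ≠ 1 := by
    intro l hl hlL hd h
    rw [← orderOf_dvd_iff_pow_eq_one, hb l hl hlL] at h
    have h1 : l ^ (D.factorization l + 1) ∣ D := by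
      rw [pow_succ, mul_comm]
      calc l * l ^ D.factorization l ∣ l * (D / l) := Nat.mul_dvd_mul_left l h
        _ = D := Nat.mul_div_cancel' hd
    exact Nat.pow_succ_factorization_not_dvd hDpos.ne' hl h1
  have hbD : ∀ l, l.Prime → l ≤ L → b l ^ D = 1 := by
    intro l hl hlL
    rw [← orderOf_dvd_iff_pow_eq_one, hb l hl hlL]
    exact Nat.ordProj_dvd D l
  -- the element
  have hr : ∀ a, (∏ i ∈ range m, t i ^ (a ^ i)) ∈ Γ := by
    intro a
    exact Subgroup.prod_mem _ (fun i hi => Subgroup.pow_mem _ (htΓ i (mem_range.1 hi)) _)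
  have hsub : {a ∈ range L | orderOf ((∏ l ∈ (range (L + 1)).filter Nat.Prime, b l) *
        (∏ i ∈ range m, t i ^ (a ^ i)) ^ E) ≠ D} ⊆
      (D.primeFactors.filter (fun l => L < l)).biUnion (fun l =>
        {a ∈ range L | ∏ i ∈ range m, (t i ^ (E * (D / l))) ^ (a ^ i) = 1}) := by
    intro a ha
    rw [mem_filter] at ha
    obtain ⟨haL, hne⟩ := ha
    by_contra hcon
    apply hne
    have hgood : ∀ l, l.Prime → l ∣ D → L < l →
        ∏ i ∈ range m, (t i ^ (E * (D / l))) ^ (a ^ i) ≠ 1 := by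
      intro l hl hd hlL h
      apply hcon
      rw [mem_biUnion]
      refine ⟨l, ?_, ?_⟩
      · rw [mem_filter, Nat.mem_primeFactors]
        exact ⟨⟨hl, hd, hDpos.ne'⟩, hlL⟩
      · rw [mem_filter]
        exact ⟨haL, h⟩
    refine orderOf_eq_of_pow_and_pow_div_prime hDpos ?_ ?_
    · rw [mul_pow, ← prod_pow]
      have h1 : ∏ l ∈ (range (L + 1)).filter Nat.Prime, b l ^ D = 1 := by
        refine prod_eq_one ?_
        intro l hl
        rw [mem_filter, mem_range] at hl
        exact hbD l hl.2 (by omega)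
      rw [h1, one_mul, ← pow_mul, mul_comm E D, pow_mul, ALG_pow_card Γ (hr a), one_pow]
    · intro l₀ hl₀ hd
      rw [mul_pow, ← prod_pow]
      rcases Nat.lt_or_ge L l₀ with hlL | hlL
      · have h1 : ∏ l ∈ (range (L + 1)).filter Nat.Prime, b l ^ (D / l₀) = 1 := by
          refine prod_eq_one ?_
          intro l hl
          rw [mem_filter, mem_range] at hl
          exact hb1 l hl.2 (by omega) l₀ hl₀ hd (by omega)
        rw [h1, one_mul, ← pow_mul, ← prod_pow]
        have h2 : ∏ i ∈ range m, (t i ^ a ^ i) ^ (E * (D / l₀)) =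
            ∏ i ∈ range m, (t i ^ (E * (D / l₀))) ^ (a ^ i) := by
          refine prod_congr rfl ?_
          intro i _
          rw [← pow_mul, ← pow_mul, mul_comm]
        rw [h2]
        exact hgood l₀ hl₀ hd hlL
      · have h1 : ∏ l ∈ (range (L + 1)).filter Nat.Prime, b l ^ (D / l₀) = b l₀ ^ (D / l₀) := by
          refine prod_eq_single l₀ ?_ ?_
          · intro l hl hne
            rw [mem_filter, mem_range] at hl
            exact hb1 l hl.2 (by omega) l₀ hl₀ hd hne
          · intro h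
            exfalso
            apply h
            rw [mem_filter, mem_range]
            exact ⟨by omega, hl₀⟩
        have h2 : D ∣ E * (D / l₀) := by
          have h3 : l₀ ∣ E := by
            refine dvd_trans ?_ (hE l₀ hl₀ hlL)
            refine dvd_pow_self l₀ ?_
            exact (hl₀.factorization_pos_of_dvd hDpos.ne' hd).ne'
          calc D = l₀ * (D / l₀) := (Nat.mul_div_cancel' hd).symm
            _ ∣ E * (D / l₀) := Nat.mul_dvd_mul_right h3 _
        have h3 : ((∏ i ∈ range m, t i ^ (a ^ i)) ^ E) ^ (D / l₀) = 1 := by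
          rw [← pow_mul]
          obtain ⟨k, hk⟩ := h2
          rw [hk, pow_mul, ALG_pow_card Γ (hr a), one_pow]
        rw [h1, h3, mul_one]
        exact hb2 l₀ hl₀ hlL hd
  refine (card_le_card hsub).trans (card_biUnion_le.trans ?_)
  rw [mul_comm, ← smul_eq_mul]
  refine sum_le_card_nsmul _ _ _ ?_
  intro l hl
  rw [mem_filter, Nat.mem_primeFactors] at hl
  obtain ⟨⟨hlp, hd, -⟩, hlL⟩ := hl
  refine ALG_bad hlp hlL (fun i => t i ^ (E * (D / l))) ?_ ?_
  · intro i hi
    change (t i ^ (E * (D / l))) ^ l = 1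
    rw [← pow_mul, mul_assoc, Nat.div_mul_cancel hd, mul_comm, pow_mul,
      ALG_pow_card Γ (htΓ i hi), one_pow]
  · by_contra hcon
    push Not at hcon
    have h1 := ALG_dvd Γ (ALG_closure Γ hΓ hcon)
    have h2 : l ∣ E := by
      have h3 : l * (D / l) ∣ E * (D / l) := by
        rw [Nat.mul_div_cancel' hd]
        exact h1
      have h4 : 0 < D / l := Nat.div_pos (Nat.le_of_dvd hDpos hd) hlp.pos
      exact Nat.dvd_of_mul_dvd_mul_right h4 h3
    have := hE' l hlp h2
    omega

end Pool.Agent.H595R2.PR
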