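import Mathlib
import Pool.Agent.H595R2.PR.Defs

/-! The group generated by small numbers. -/

namespace Pool.Agent.H595R2.PR

/-- the subgroup of `(ℤ/p)ˣ` generated by `1, 2, …, Y` -/
def Gam (p Y : ℕ) : Subgroup (ZMod p)ˣ :=
  Subgroup.closure {u | ∃ i : ℕ, i < Y ∧ (u : ZMod p) = ((i + 1 : ℕ) : ZMod p)}

end Pool.Agent.H595R2.PR
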