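import Mathlib
import Pool.Agent.H595R2.PR.Defs
import Pool.Agent.H595R2.PR.Gam

/-! # CHI: a nontrivial character trivial on a proper subgroup -/

namespace Pool.Agent.H595R2.PR

open Finset

/-- CHI. If `Γ` is not the whole group then some nontrivial character is trivial on `1, …, Y`. -/
theorem exists_char {p Y : ℕ} [Fact p.Prime] (hY : Y < p) (h : Gam p Y ≠ ⊤) :
    ∃ χ : DirichletCharacter ℂ p, χ ≠ 1 ∧ ∀ i : ℕ, 1 ≤ i → i ≤ Y → χ (i : ZMod p) = 1 := by
  obtain ⟨u, hu⟩ : ∃ u, u ∉ Gam p Y := by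
    by_contra hcon
    push Not at hcon
    exact h ((Subgroup.eq_top_iff' _).2 hcon)
  have hne : (QuotientGroup.mk u : (ZMod p)ˣ ⧸ Gam p Y) ≠ 1 := by
    intro h1
    exact hu ((QuotientGroup.eq_one_iff u).1 h1)
  obtain ⟨φ, hφ⟩ := CommGroup.exists_apply_ne_one_of_hasEnoughRootsOfUnity
    ((ZMod p)ˣ ⧸ Gam p Y) ℂ hne
  refine ⟨MulChar.ofUnitHom (φ.comp (QuotientGroup.mk' (Gam p Y))), ?_, ?_⟩
  · intro h1
    have h2 := MulChar.ofUnitHom_coe (φ.comp (QuotientGroup.mk' (Gam p Y))) u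
    rw [h1, MulChar.one_apply_coe] at h2
    apply hφ
    apply Units.ext
    exact h2.symm
  · intro i hi1 hiY
    have hi0 : ((i : ℕ) : ZMod p) ≠ 0 := by
      intro h1
      rw [ZMod.natCast_eq_zero_iff] at h1
      have := Nat.le_of_dvd (by omega) h1
      omega
    have h2 := MulChar.ofUnitHom_coe (φ.comp (QuotientGroup.mk' (Gam p Y))) (Units.mk0 _ hi0)
    rw [Units.val_mk0] at h2
    rw [h2]
    have hmem : Units.mk0 ((i : ℕ) : ZMod p) hi0 ∈ Gam p Y := by
      refine Subgroup.subset_closure ⟨i - 1, by omega, ?_⟩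
      rw [Units.val_mk0]
      congr 1
      omega
    have h3 : (QuotientGroup.mk' (Gam p Y)) (Units.mk0 ((i : ℕ) : ZMod p) hi0) = 1 :=
      (QuotientGroup.eq_one_iff _).2 hmem
    rw [MonoidHom.comp_apply, h3, map_one]
    rfl

end Pool.Agent.H595R2.PR
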