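import Mathlib
import Pool.Agent.H595R2.PR.Defs
import Pool.Agent.H595R2.PR.Gam

/-! # CNT: smooth numbers in the group generated by small numbers -/

namespace Pool.Agent.H595R2.PR

open Finset

/-- tuples of primes with given product -/
theorem CNT_fibre {u : ℕ} (S : Finset (Fin u → ℕ)) (f₀ : Fin u → ℕ)
    (hS : ∀ f ∈ S, (∀ i, (f i).Prime) ∧ ∏ i, f i = ∏ i, f₀ i) (h₀ : ∀ i, (f₀ i).Prime) :
    S.card ≤ u.factorial := by
  have h1 : S.card ≤ ((List.ofFn f₀).permutations.toFinset).card := by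
    refine card_le_card_of_injOn (fun f => List.ofFn f) ?_ ?_
    · intro f hf
      obtain ⟨h2, h3⟩ := hS f hf
      rw [mem_coe, List.mem_toFinset, List.mem_permutations]
      have h4 : (List.ofFn f).Perm (∏ i, f₀ i).primeFactorsList := by
        refine Nat.primeFactorsList_unique ?_ ?_
        · rw [List.prod_ofFn, h3]
        · intro q hq
          rw [List.mem_ofFn] at hq
          obtain ⟨i, rfl⟩ := hq
          exact h2 i
      have h5 : (List.ofFn f₀).Perm (∏ i, f₀ i).primeFactorsList := by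
        refine Nat.primeFactorsList_unique ?_ ?_
        · rw [List.prod_ofFn]
        · intro q hq
          rw [List.mem_ofFn] at hq
          obtain ⟨i, rfl⟩ := hq
          exact h₀ i
      exact h4.trans h5.symm
    · intro f _ g _ hfg
      exact List.ofFn_injective hfg
  refine h1.trans ((List.toFinset_card_le _).trans ?_)
  rw [List.length_permutations, List.length_ofFn]

/-- CNT. Smooth numbers in `Γ`. -/
theorem card_Gam_ge {p Y u : ℕ} [Fact p.Prime] (hY : Y < p) (hu : Y ^ u < p) :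
    (Nat.primeCounting Y) ^ u ≤ u.factorial * Nat.card (Gam p Y) := by
  classical
  let Pr : Finset ℕ := (range (Y + 1)).filter Nat.Prime
  have hPr : Pr.card = Nat.primeCounting Y := by
    rw [Nat.primeCounting, Nat.primeCounting', Nat.count_eq_card_filter_range]
  let S : Finset (Fin u → ℕ) := Fintype.piFinset (fun _ => Pr)
  have hScard : S.card = (Nat.primeCounting Y) ^ u := by
    rw [Fintype.card_piFinset_const, hPr]
  have hSm : ∀ f ∈ S, ∀ i, (f i).Prime ∧ f i ≤ Y := by
    intro f hf i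
    have h1 := (Fintype.mem_piFinset.1 hf) i
    rw [mem_filter, mem_range] at h1
    exact ⟨h1.2, by omega⟩
  have hlt : ∀ f ∈ S, ∏ i, f i < p := by
    intro f hf
    refine lt_of_le_of_lt ?_ hu
    calc ∏ i, f i ≤ ∏ _i : Fin u, Y := prod_le_prod' (fun i _ => (hSm f hf i).2)
      _ = Y ^ u := by simp
  let g : (Fin u → ℕ) → (ZMod p)ˣ := fun f =>
    if h : ((∏ i, f i : ℕ) : ZMod p) ≠ 0 then Units.mk0 _ h else 1
  have hne : ∀ f ∈ S, ((∏ i, f i : ℕ) : ZMod p) ≠ 0 := by
    intro f hf h1
    rw [ZMod.natCast_eq_zero_iff] at h1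
    have h2 : 0 < ∏ i, f i := prod_pos (fun i _ => (hSm f hf i).1.pos)
    have h3 := Nat.le_of_dvd h2 h1
    have h4 := hlt f hf
    omega
  have hg : ∀ f ∈ S, ((g f : (ZMod p)ˣ) : ZMod p) = ((∏ i, f i : ℕ) : ZMod p) := by
    intro f hf
    simp only [g, dif_pos (hne f hf), Units.val_mk0]
  have hfin : Finite (Gam p Y) := inferInstance
  let T : Finset (ZMod p)ˣ := (Set.toFinite ((Gam p Y : Set (ZMod p)ˣ))).toFinset
  have hT : T.card = Nat.card (Gam p Y) := by
    rw [← Set.ncard_eq_toFinset_card]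
    rfl
  have hmaps : ∀ f ∈ S, g f ∈ T := by
    intro f hf
    rw [Set.Finite.mem_toFinset]
    have hex : ∀ i : Fin u, ∃ w : (ZMod p)ˣ, w ∈ Gam p Y ∧ (w : ZMod p) = ((f i : ℕ) : ZMod p) := by
      intro i
      obtain ⟨h1, h2⟩ := hSm f hf i
      have h3 := h1.two_le
      have hi0 : ((f i : ℕ) : ZMod p) ≠ 0 := by
        intro h4
        rw [ZMod.natCast_eq_zero_iff] at h4
        have := Nat.le_of_dvd (by omega) h4
        omega
      refine ⟨Units.mk0 _ hi0, Subgroup.subset_closure ⟨f i - 1, by omega, ?_⟩, Units.val_mk0 hi0⟩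
      rw [Units.val_mk0]
      congr 1
      omega
    choose w hw1 hw2 using hex
    have h5 : g f = ∏ i, w i := by
      apply Units.ext
      rw [hg f hf, Units.coe_prod]
      push_cast
      exact prod_congr rfl (fun i _ => (hw2 i).symm)
    rw [h5]
    exact Subgroup.prod_mem _ (fun i _ => hw1 i)
  have hmain : S.card ≤ u.factorial * T.card := by
    refine card_le_mul_card_image_of_maps_to hmaps u.factorial ?_
    intro b _
    rcases (S.filter (fun f => g f = b)).eq_empty_or_nonempty with h0 | ⟨f₀, hf₀⟩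
    · rw [h0]
      exact Nat.zero_le _
    · rw [mem_filter] at hf₀
      refine CNT_fibre _ f₀ ?_ (fun i => (hSm f₀ hf₀.1 i).1)
      intro f hf
      rw [mem_filter] at hf
      refine ⟨fun i => (hSm f hf.1 i).1, ?_⟩
      have h1 : ((∏ i, f i : ℕ) : ZMod p) = ((∏ i, f₀ i : ℕ) : ZMod p) := by
        rw [← hg f hf.1, ← hg f₀ hf₀.1, hf.2, hf₀.2]
      rw [ZMod.natCast_eq_natCast_iff'] at h1
      rwa [Nat.mod_eq_of_lt (hlt f hf.1), Nat.mod_eq_of_lt (hlt f₀ hf₀.1)] at h1
  rw [hScard, hT] at hmain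
  exact hmain

end Pool.Agent.H595R2.PR
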