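import Mathlib
import Pool.Agent.H595R2.PR.Defs

namespace Pool.Agent.H595R2.PR

/-- ISP -/
theorem isPr_iff (l : ℕ) : isPr l = true ↔ l.Prime := by
  unfold isPr
  simp only [Bool.and_eq_true, decide_eq_true_eq, List.all_eq_true, List.mem_range,
    Bool.or_eq_true, Bool.not_eq_true', decide_eq_false_iff_not]
  constructor
  · rintro ⟨h2, h⟩
    rw [Nat.prime_def_lt]
    refine ⟨h2, fun d hd hdl => ?_⟩
    rcases h d hd with h1 | h1
    · have := Nat.pos_of_dvd_of_pos hdl (by omega)
      omega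
    · exact absurd (Nat.mod_eq_zero_of_dvd hdl) h1
  · intro h
    refine ⟨h.two_le, fun d hd => ?_⟩
    by_contra hc
    push Not at hc
    obtain ⟨h1, h2⟩ := hc
    rcases (Nat.dvd_prime h).1 (Nat.dvd_of_mod_eq_zero h2) with h3 | h3
    · omega
    · omega

end Pool.Agent.H595R2.PR
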