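import Mathlib
import Pool.Agent.H595R2.PR.Defs

namespace Pool.Agent.H595R2.PR

open Pool.Agent.NPC

theorem md_mod (p x : ℕ) : md p x ≡ x [MOD max p 1] := Nat.mod_modEq _ _

theorem md_congr {p x y : ℕ} (h : x ≡ y [MOD max p 1]) : md p x = md p y := h

/-- POW -/
theorem pw_eq (p b e : ℕ) : pw p b e = md p (b ^ e) := by
  have key : ∀ l : List Bool, l.foldr (fun c acc => if c then md p (acc * acc * b)
      else md p (acc * acc)) (md p 1) = md p (b ^ valB l) := by
    intro l
    induction l with
    | nil => simp
    | cons c l ih =>
      rw [List.foldr_cons, ih, valB_cons]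
      have h1 : md p (b ^ valB l) * md p (b ^ valB l) ≡ b ^ (2 * valB l) [MOD max p 1] := by
        have := (md_mod p (b ^ valB l)).mul (md_mod p (b ^ valB l))
        rwa [← pow_add, ← two_mul] at this
      cases c
      · simp only [Bool.false_eq_true, if_false]
        refine (md_congr h1).trans ?_
        simp
      · simp only [if_true]
        refine (md_congr (h1.mul_right b)).trans ?_
        rw [← pow_succ]
        congr 2
        simp [add_comm]
  unfold pw
  rw [key, valB_bits]

end Pool.Agent.H595R2.PR
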