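import Mathlib
import Pool.Agent.H595R2.PR.Defs

/-! # SEL: selection of an element of maximal order in the `l`-part -/

namespace Pool.Agent.H595R2.PR

open Finset

section facts

set_option linter.unusedSectionVars false

variable {G : Type} [CommGroup G] [Finite G] [IsCyclic G] (Γ : Subgroup G)

theorem SEL_pow_card {x : G} (hx : x ∈ Γ) : x ^ Nat.card Γ = 1 := by
  have h1 : (⟨x, hx⟩ : Γ) ^ Nat.card Γ = 1 := pow_card_eq_one'
  exact congrArg (Subtype.val) h1

theorem SEL_dvd {k : ℕ} (h : ∀ x ∈ Γ, x ^ k = 1) : Nat.card Γ ∣ k := by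
  rw [← IsCyclic.exponent_eq_card (α := Γ)]
  rw [Monoid.exponent_dvd_iff_forall_pow_eq_one]
  intro g
  apply Subtype.ext
  simpa using h g.1 g.2

theorem SEL_closure {t : ℕ → G} {m k : ℕ} (hΓ : Γ = Subgroup.closure (t '' Set.Iio m))
    (h : ∀ i < m, t i ^ k = 1) : ∀ x ∈ Γ, x ^ k = 1 := by
  have h1 : Γ ≤ (powMonoidHom k : G →* G).ker := by
    rw [hΓ, Subgroup.closure_le]
    rintro _ ⟨i, hi, rfl⟩
    exact h i hi
  intro x hx
  exact h1 hx

theorem SEL_mono {l k k' : ℕ} {x : G} (h : x ^ (l ^ k) = 1) (hk : k ≤ k') : x ^ (l ^ k') = 1 := by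
  obtain ⟨j, rfl⟩ := Nat.exists_eq_add_of_le hk
  rw [pow_add, pow_mul, h, one_pow]

/-- invariant of the fold -/
theorem SEL_fold {l n v : ℕ} (f : G → G → G)
    (hf : ∀ b x, (f b x = x ∧ ∃ k ≤ n, b ^ (l ^ k) = 1 ∧ x ^ (l ^ k) ≠ 1) ∨
      (f b x = b ∧ ∀ k ≤ n, b ^ (l ^ k) = 1 → x ^ (l ^ k) = 1))
    (xs : List G) (b : G) (hb : b ^ (l ^ v) = 1) (hxs : ∀ x ∈ xs, x ^ (l ^ v) = 1) :
    (xs.foldl f b) ^ (l ^ v) = 1 ∧ ∀ y, (y = b ∨ y ∈ xs) →
      ∀ k ≤ n, (xs.foldl f b) ^ (l ^ k) = 1 → y ^ (l ^ k) = 1 := by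
  induction xs generalizing b with
  | nil =>
    refine ⟨hb, ?_⟩
    rintro y (rfl | h) k _ h1
    · exact h1
    · simp at h
  | cons x xs ih =>
    rw [List.foldl_cons]
    have hc : (f b x) ^ (l ^ v) = 1 := by
      rcases hf b x with ⟨h1, -⟩ | ⟨h1, -⟩
      · rw [h1]; exact hxs x (by simp)
      · rw [h1]; exact hb
    obtain ⟨h1, h2⟩ := ih (f b x) hc (fun y hy => hxs y (by simp [hy]))
    refine ⟨h1, ?_⟩
    have hdom : ∀ y, (y = b ∨ y = x) → ∀ k ≤ n, (f b x) ^ (l ^ k) = 1 → y ^ (l ^ k) = 1 := by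
      intro y hy k hk h3
      rcases hf b x with ⟨h4, k', hk', h5, h6⟩ | ⟨h4, h5⟩
      · rw [h4] at h3
        rcases hy with rfl | rfl
        · have h7 : k' ≤ k := by
            by_contra h8
            exact h6 (SEL_mono h3 (by omega))
          exact SEL_mono h5 h7
        · exact h3
      · rw [h4] at h3
        rcases hy with rfl | rfl
        · exact h3
        · exact h5 k hk h3
    rintro y (hy | hy) k hk h3
    · exact hdom y (Or.inl hy) k hk (h2 _ (Or.inl rfl) k hk h3)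
    · rcases List.mem_cons.mp hy with hy | hy
      · exact hdom y (Or.inr hy) k hk (h2 _ (Or.inl rfl) k hk h3)
      · exact h2 y (Or.inr hy) k hk h3

end facts

open Classical in
/-- SEL. Selection of an element of maximal order in the `l`-part. -/
theorem best_alg {G : Type} [CommGroup G] [Finite G] [IsCyclic G] (t : ℕ → G) (m n l M : ℕ)
    (Γ : Subgroup G) (hΓ : Γ = Subgroup.closure (t '' Set.Iio m)) (hl : l.Prime)
    (hn : Nat.card G < 2 ^ n) (hM : M = Nat.card G / l ^ (Nat.card G).factorization l) :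
    orderOf (((List.range m).map fun i => t i ^ M).foldl
      (fun b x => if (∃ k ≤ n, b ^ (l ^ k) = 1 ∧ x ^ (l ^ k) ≠ 1) then x else b) 1) =
      l ^ (Nat.card Γ).factorization l := by
  have hDpos : 0 < Nat.card Γ := Nat.card_pos
  have hNpos : 0 < Nat.card G := Nat.card_pos
  have hDN : Nat.card Γ ∣ Nat.card G := Subgroup.card_subgroup_dvd_card Γ
  set D := Nat.card Γ with hD
  set N := Nat.card G with hN
  set v := D.factorization l with hv
  have htΓ : ∀ i < m, t i ∈ Γ := by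
    intro i hi
    rw [hΓ]
    exact Subgroup.subset_closure ⟨i, hi, rfl⟩
  have hdvd : D ∣ M * l ^ v := by
    have h1 : D / l ^ v ∣ M := by
      have h2 : D / l ^ v ∣ l ^ N.factorization l * (N / l ^ N.factorization l) := by
        rw [Nat.ordProj_mul_ordCompl_eq_self N l]
        exact dvd_trans (Nat.ordCompl_dvd D l) hDN
      rw [hM]
      refine Nat.Coprime.dvd_of_dvd_mul_left ?_ h2
      exact ((Nat.coprime_ordCompl hl hDpos.ne').pow_left _).symm
    calc D = l ^ v * (D / l ^ v) := (Nat.ordProj_mul_ordCompl_eq_self D l).symm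
      _ ∣ l ^ v * M := Nat.mul_dvd_mul_left _ h1
      _ = M * l ^ v := mul_comm _ _
  have hx1 : ∀ i < m, (t i ^ M) ^ (l ^ v) = 1 := by
    intro i hi
    rw [← pow_mul]
    obtain ⟨k, hk⟩ := hdvd
    rw [hk, pow_mul, SEL_pow_card Γ (htΓ i hi), one_pow]
  have hvn : v < n := by
    have h1 : l ^ v ≤ N := Nat.le_of_dvd hNpos (dvd_trans (Nat.ordProj_dvd D l) hDN)
    have h2 : 2 ^ v ≤ l ^ v := Nat.pow_le_pow_left hl.two_le v
    exact (Nat.pow_lt_pow_iff_right (by norm_num : 1 < 2)).1 (lt_of_le_of_lt (h2.trans h1) hn)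
  obtain ⟨h1, h2⟩ := SEL_fold (l := l) (n := n) (v := v)
    (fun b x : G => if (∃ k ≤ n, b ^ (l ^ k) = 1 ∧ x ^ (l ^ k) ≠ 1) then x else b) (by
      intro b x
      by_cases h : ∃ k ≤ n, b ^ (l ^ k) = 1 ∧ x ^ (l ^ k) ≠ 1
      · left
        exact ⟨if_pos h, h⟩
      · right
        refine ⟨if_neg h, ?_⟩
        intro k hk h3
        by_contra h4
        exact h ⟨k, hk, h3, h4⟩) ((List.range m).map fun i => t i ^ M) 1 (one_pow _) (by
      intro x hx
      rw [List.mem_map] at hx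
      obtain ⟨i, hi, rfl⟩ := hx
      exact hx1 i (List.mem_range.1 hi))
  rcases Nat.eq_zero_or_pos v with hv0 | hv0
  · rw [hv0, pow_zero, pow_one] at h1
    rw [h1, hv0, orderOf_one, pow_zero]
  · obtain ⟨w, hw⟩ : ∃ w, v = w + 1 := ⟨v - 1, by omega⟩
    rw [hw]
    have : Fact l.Prime := ⟨hl⟩
    refine orderOf_eq_prime_pow ?_ ?_
    · intro h3
      have h4 : ∀ i < m, t i ^ (M * l ^ w) = 1 := by
        intro i hi
        rw [pow_mul]
        refine h2 (t i ^ M) (Or.inr ?_) w (by omega) h3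
        rw [List.mem_map]
        exact ⟨i, List.mem_range.2 hi, rfl⟩
      have h5 := SEL_dvd Γ (SEL_closure Γ hΓ h4)
      have h6 : l ^ v ∣ M * l ^ w := dvd_trans (Nat.ordProj_dvd D l) h5
      rw [hw, pow_succ, mul_comm] at h6
      have h7 : l ∣ M := Nat.dvd_of_mul_dvd_mul_right (pow_pos hl.pos w) h6
      rw [hM] at h7
      exact Nat.not_dvd_ordCompl hl hNpos.ne' h7
    · rw [← hw]
      exact h1

end Pool.Agent.H595R2.PR
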