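import Mathlib
import Pool.Agent.H595R2.PR.Defs

namespace Pool.Agent.H595R2.PR

/-- STR -/
theorem strip_eq {l n N : ℕ} (hl : l.Prime) (hN : 0 < N) (hn : N < 2 ^ n) :
    strip l n N = N / l ^ N.factorization l := by
  -- stationary on numbers prime to l
  have hst : ∀ k m : ℕ, ¬ l ∣ m → strip l k m = m := by
    intro k
    induction k with
    | zero => intro m _; rfl
    | succ k ih =>
      intro m hm
      unfold strip at *
      rw [Function.iterate_succ_apply]
      have : ¬ m % l = 0 := fun h => hm (Nat.dvd_of_mod_eq_zero h)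
      rw [if_neg this]
      exact ih m hm
  have key : ∀ (v k M : ℕ), v ≤ k → ¬ l ∣ M → strip l k (l ^ v * M) = M := by
    intro v
    induction v with
    | zero => intro k M _ hM; rw [pow_zero, one_mul]; exact hst k M hM
    | succ v ih =>
      intro k M hk hM
      obtain ⟨k, rfl⟩ : ∃ k', k = k' + 1 := ⟨k - 1, by omega⟩
      have h1 : (l ^ (v + 1) * M) % l = 0 := by
        rw [pow_succ, mul_assoc, mul_comm (l ^ v), mul_assoc]
        simp
      have h2 : (l ^ (v + 1) * M) / l = l ^ v * M := by
        rw [pow_succ, mul_right_comm]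
        exact Nat.mul_div_cancel _ hl.pos
      have h3 := ih k M (by omega) hM
      unfold strip at *
      rw [Function.iterate_succ_apply, if_pos h1, h2]
      exact h3
  obtain ⟨M, hM⟩ : l ^ N.factorization l ∣ N := Nat.ordProj_dvd N l
  have hM' : N / l ^ N.factorization l = M :=
    Nat.div_eq_of_eq_mul_right (pow_pos hl.pos _) hM
  have hnd : ¬ l ∣ M := by
    rw [← hM']
    exact Nat.not_dvd_ordCompl hl hN.ne'
  have hv : N.factorization l ≤ n := by
    have h1 : 2 ^ N.factorization l ≤ N :=
      (Nat.pow_le_pow_left hl.two_le _).trans (Nat.le_of_dvd hN (Nat.ordProj_dvd N l))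
    exact ((Nat.pow_lt_pow_iff_right (by norm_num)).1 (lt_of_le_of_lt h1 hn)).le
  rw [hM']
  have := key _ n M hv hnd
  rwa [← hM] at this

end Pool.Agent.H595R2.PR
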