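import Mathlib
import Pool.Agent.H595R2.PR.Gam
import Pool.Agent.H595R2.PR.POW
import Pool.Agent.H595R2.PR.STR
import Pool.Agent.H595R2.PR.ISP
import Pool.Agent.H595R2.PR.SEL

namespace Pool.Agent.H595R2.PR

open Finset

section cor

variable {p : ℕ} [hp : Fact p.Prime]

theorem cor_max : max p 1 = p := max_eq_left hp.out.one_lt.le

theorem cor_md (x : ℕ) : ((md p x : ℕ) : ZMod p) = (x : ZMod p) := by
  unfold md
  rw [cor_max, ZMod.natCast_mod]

theorem cor_md_lt (x : ℕ) : md p x < p := by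
  unfold md
  rw [cor_max]
  exact Nat.mod_lt _ hp.out.pos

theorem cor_pw (b e : ℕ) : ((pw p b e : ℕ) : ZMod p) = (b : ZMod p) ^ e := by
  rw [pw_eq, cor_md, Nat.cast_pow]

theorem cor_pw_lt (b e : ℕ) : pw p b e < p := by
  rw [pw_eq]
  exact cor_md_lt _

theorem cor_iter (k n x : ℕ) :
    (((fun z => pw p z k)^[n] x : ℕ) : ZMod p) = (x : ZMod p) ^ (k ^ n) := by
  induction n generalizing x with
  | zero => simp
  | succ n ih =>
    rw [Function.iterate_succ_apply, ih, cor_pw, ← pow_mul, pow_succ']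

theorem cor_iter_lt (k n x : ℕ) (hx : x < p) : (fun z => pw p z k)^[n] x < p := by
  induction n generalizing x with
  | zero => simpa using hx
  | succ n ih =>
    rw [Function.iterate_succ_apply]
    exact ih _ (cor_pw_lt _ _)

theorem cor_kill (n L x : ℕ) :
    ((kill p n L x : ℕ) : ZMod p) = (x : ZMod p) ^ (∏ d ∈ range L, (d + 1) ^ n) := by
  unfold kill
  induction L with
  | zero => simp
  | succ L ih =>
    rw [List.range_succ, List.foldl_append, List.foldl_cons, List.foldl_nil, cor_iter, ih,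
      prod_range_succ, pow_mul]

theorem cor_horner' (a k s : ℕ) :
    (((List.range' s k).foldr (fun i acc => md p ((i + 1) * pw p acc a)) (md p 1) : ℕ) : ZMod p) =
      ∏ j ∈ range k, ((s + j + 1 : ℕ) : ZMod p) ^ (a ^ j) := by
  induction k generalizing s with
  | zero => simp [cor_md]
  | succ k ih =>
    rw [List.range'_succ, List.foldr_cons, cor_md, Nat.cast_mul, cor_pw, ih, prod_range_succ',
      ← prod_pow, pow_zero, pow_one, mul_comm]
    congr 1
    apply prod_congr rfl
    intro j _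
    rw [← pow_mul, pow_succ]
    congr 2
    ring

theorem cor_horner (Y a : ℕ) :
    ((horner p Y a : ℕ) : ZMod p) = ∏ j ∈ range Y, ((j + 1 : ℕ) : ZMod p) ^ (a ^ j) := by
  unfold horner
  rw [List.range_eq_range', cor_horner']
  simp

theorem cor_one : md p 1 = 1 := by
  unfold md
  rw [cor_max]
  exact Nat.mod_eq_of_lt hp.out.one_lt

theorem cor_inj {x y : ℕ} (hx : x < p) (hy : y < p) : x = y ↔ ((x : ZMod p) = (y : ZMod p)) := by
  rw [ZMod.natCast_eq_natCast_iff', Nat.mod_eq_of_lt hx, Nat.mod_eq_of_lt hy]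

theorem cor_test (l k x : ℕ) (hx : x < p) (u : (ZMod p)ˣ) (hu : (x : ZMod p) = (u : ZMod p)) :
    (fun z => pw p z l)^[k] x = md p 1 ↔ u ^ (l ^ k) = 1 := by
  rw [cor_inj (cor_iter_lt l k x hx) (cor_md_lt 1), cor_iter, cor_md, hu, Nat.cast_one,
    ← Units.val_pow_eq_pow_val, Units.val_eq_one]

theorem cor_better (n l x y : ℕ) (hx : x < p) (hy : y < p) (u v : (ZMod p)ˣ)
    (hu : (x : ZMod p) = (u : ZMod p)) (hv : (y : ZMod p) = (v : ZMod p)) :
    better p n l x y = true ↔ ∃ k ≤ n, u ^ (l ^ k) = 1 ∧ v ^ (l ^ k) ≠ 1 := by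
  unfold better
  rw [List.any_eq_true]
  constructor
  · rintro ⟨k, hk, h⟩
    rw [List.mem_range] at hk
    rw [Bool.and_eq_true, Bool.not_eq_true', decide_eq_true_eq, decide_eq_false_iff_not,
      cor_test l k x hx u hu, cor_test l k y hy v hv] at h
    exact ⟨k, by omega, h⟩
  · rintro ⟨k, hk, h⟩
    refine ⟨k, List.mem_range.2 (by omega), ?_⟩
    rw [Bool.and_eq_true, Bool.not_eq_true', decide_eq_true_eq, decide_eq_false_iff_not,
      cor_test l k x hx u hu, cor_test l k y hy v hv]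
    exact h

/-- the units -/
noncomputable def cort (p : ℕ) [Fact p.Prime] (i : ℕ) : (ZMod p)ˣ :=
  open Classical in
  if h : ((i + 1 : ℕ) : ZMod p) ≠ 0 then Units.mk0 _ h else 1

theorem cort_val {Y : ℕ} (hY : Y < p) {i : ℕ} (hi : i < Y) :
    ((cort p i : (ZMod p)ˣ) : ZMod p) = ((i + 1 : ℕ) : ZMod p) := by
  have h : ((i + 1 : ℕ) : ZMod p) ≠ 0 := by
    rw [Ne, ZMod.natCast_eq_zero_iff]
    intro hd
    have := Nat.le_of_dvd (by omega) hd
    omega
  unfold cort
  rw [dif_pos h, Units.val_mk0]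

open Classical in
/-- the fold in the group of units -/
theorem cor_fold (n l : ℕ) (xs : List ℕ) (us : List (ZMod p)ˣ)
    (h : List.Forall₂ (fun x u => x < p ∧ (x : ZMod p) = ((u : (ZMod p)ˣ) : ZMod p)) xs us)
    (b : ℕ) (c : (ZMod p)ˣ) (hb : b < p) (hbc : (b : ZMod p) = (c : ZMod p)) :
    ((xs.foldl (fun b x => if better p n l b x then x else b) b : ℕ) : ZMod p) =
      ((us.foldl (fun b x => if (∃ k ≤ n, b ^ (l ^ k) = 1 ∧ x ^ (l ^ k) ≠ 1) then x else b) c :
        (ZMod p)ˣ) : ZMod p) := by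
  induction h generalizing b c with
  | nil => simpa using hbc
  | @cons x u xs' us' hxu _ ih =>
    rw [List.foldl_cons, List.foldl_cons]
    have hiff := cor_better n l b x hb hxu.1 c u hbc hxu.2
    by_cases hc : ∃ k ≤ n, c ^ (l ^ k) = 1 ∧ u ^ (l ^ k) ≠ 1
    · rw [if_pos hc, if_pos (hiff.2 hc)]
      exact ih x u hxu.1 hxu.2
    · rw [if_neg hc, if_neg (fun h => hc (hiff.1 h))]
      exact ih b c hb hbc

open Classical in
/-- the selected element -/
noncomputable def corb (p : ℕ) [Fact p.Prime] (n Y l : ℕ) : (ZMod p)ˣ :=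
  ((List.range Y).map fun i => cort p i ^ (strip l n (p - 1))).foldl
      (fun b x => if (∃ k ≤ n, b ^ (l ^ k) = 1 ∧ x ^ (l ^ k) ≠ 1) then x else b) 1

theorem cor_best {n Y l : ℕ} (hY : Y < p) :
    ((best p n Y l : ℕ) : ZMod p) = ((corb p n Y l : (ZMod p)ˣ) : ZMod p) := by
  unfold best corb
  apply cor_fold
  · rw [List.forall₂_map_left_iff, List.forall₂_map_right_iff, List.forall₂_same]
    intro i hi
    rw [List.mem_range] at hi
    refine ⟨cor_pw_lt _ _, ?_⟩
    rw [cor_pw, Units.val_pow_eq_pow_val, cort_val hY hi]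
  · exact cor_md_lt 1
  · rw [cor_md]; simp

theorem cor_small {n L Y : ℕ} (hY : Y < p) :
    ((small p n L Y : ℕ) : ZMod p) =
      ((∏ l ∈ (range (L + 1)).filter Nat.Prime, corb p n Y l : (ZMod p)ˣ) : ZMod p) := by
  unfold small
  rw [prod_filter]
  generalize L + 1 = K
  induction K with
  | zero => simp [cor_md]
  | succ K ih =>
    rw [List.range_succ, List.foldl_append, List.foldl_cons, List.foldl_nil, prod_range_succ]
    by_cases hK : K.Prime
    · rw [if_pos ((isPr_iff K).2 hK), if_pos hK, cor_md, Nat.cast_mul, ih, cor_best hY,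
        Units.val_mul]
    · rw [if_neg (fun h => hK ((isPr_iff K).1 h)), if_neg hK, mul_one, ih]

end cor

/-- COR. The candidate, as an element of the group `(ℤ/p)ˣ`. -/
theorem cand_eq {p n L Y : ℕ} [Fact p.Prime] (hY : Y < p) (hn : p < 2 ^ n) :
    ∃ (t : ℕ → (ZMod p)ˣ) (b : ℕ → (ZMod p)ˣ) (E : ℕ),
      (∀ i < Y, ((t i : (ZMod p)ˣ) : ZMod p) = ((i + 1 : ℕ) : ZMod p)) ∧
      Gam p Y = Subgroup.closure (t '' Set.Iio Y) ∧
      (∀ l, l.Prime → l ≤ L → orderOf (b l) = l ^ (Nat.card (Gam p Y)).factorization l) ∧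
      (∀ l, l.Prime → l ≤ L → l ^ (Nat.card (Gam p Y)).factorization l ∣ E) ∧
      (∀ l, l.Prime → l ∣ E → l ≤ L) ∧
      ∀ a, ((cand p n L Y a : ℕ) : ZMod p) =
        (((∏ l ∈ (range (L + 1)).filter Nat.Prime, b l) *
          (∏ i ∈ range Y, t i ^ (a ^ i)) ^ E : (ZMod p)ˣ) : ZMod p) := by
  have hp : p.Prime := Fact.out
  have hp1 : 0 < p - 1 := by have := hp.one_lt; omega
  have hcard : Nat.card (ZMod p)ˣ = p - 1 := by
    rw [Nat.card_eq_fintype_card, ZMod.card_units]
  have hGam : Gam p Y = Subgroup.closure (cort p '' Set.Iio Y) := by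
    unfold Gam
    congr 1
    ext u
    constructor
    · rintro ⟨i, hi, hu⟩
      exact ⟨i, hi, Units.ext (by rw [cort_val hY hi, hu])⟩
    · rintro ⟨i, hi, rfl⟩
      exact ⟨i, hi, cort_val hY hi⟩
  have hcardG : Nat.card (Gam p Y) ≤ p - 1 := by
    rw [← hcard]
    exact Subgroup.card_le_card_group _
  have hcard0 : Nat.card (Gam p Y) ≠ 0 := Nat.card_pos.ne'
  refine ⟨cort p, corb p n Y, ∏ d ∈ range L, (d + 1) ^ n, fun i hi => cort_val hY hi, hGam, ?_, ?_,
    ?_, ?_⟩
  · intro l hl _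
    unfold corb
    have h := best_alg (cort p) Y n l (strip l n (p - 1)) (Gam p Y) hGam hl (by omega)
      (by rw [hcard]; exact strip_eq hl hp1 (by omega))
    convert h
    rfl
  · intro l hl hlL
    have hv : (Nat.card (Gam p Y)).factorization l ≤ n := by
      have h1 : l ^ (Nat.card (Gam p Y)).factorization l ≤ Nat.card (Gam p Y) :=
        Nat.ordProj_le l hcard0
      have h2 : 2 ^ (Nat.card (Gam p Y)).factorization l ≤
          l ^ (Nat.card (Gam p Y)).factorization l := Nat.pow_le_pow_left hl.two_le _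
      have h3 : 2 ^ (Nat.card (Gam p Y)).factorization l < 2 ^ n := by omega
      exact ((Nat.pow_lt_pow_iff_right (by norm_num)).1 h3).le
    refine (pow_dvd_pow l hv).trans ?_
    have hmem : l - 1 ∈ range L := by
      rw [mem_range]
      have := hl.pos
      omega
    have := dvd_prod_of_mem (fun d => (d + 1) ^ n) hmem
    have e : l - 1 + 1 = l := Nat.sub_add_cancel hl.pos
    simpa only [e] using this
  · intro l hl hd
    obtain ⟨d, hd1, hd2⟩ := (Prime.dvd_finsetProd_iff hl.prime _).1 hd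
    have h1 := hl.dvd_of_dvd_pow hd2
    have h2 := Nat.le_of_dvd (by omega) h1
    rw [mem_range] at hd1
    omega
  · intro a
    unfold cand
    rw [cor_md, Nat.cast_mul, cor_small hY, cor_kill, cor_horner, Units.val_mul,
      Units.val_pow_eq_pow_val]
    congr 2
    rw [Units.coe_prod]
    apply prod_congr rfl
    intro i hi
    rw [Units.val_pow_eq_pow_val, cort_val hY (mem_range.1 hi)]

end Pool.Agent.H595R2.PR
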