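import Mathlib
import Pool.Agent.H595R2.PR.Defs

/-!
Project PR, task POL (helper539): the list of candidates is computable in polynomial time.
-/

namespace Pool.Agent.NPC.H595POL

open Pool.Agent.NPC Pool.Agent.H595R2.PR

section

variable {α β : Type} [TEnc α] [TEnc β]

/-- folds with bounded values -/
theorem foldlN {l : α → List β} {s : α → ℕ} {F : α → ℕ → β → ℕ} {B : α → ℕ} (hl : Poly l)
    (hs : Poly s) (hF : Poly (fun p : α × ℕ × β => F p.1 p.2.1 p.2.2)) (hB : Poly B)
    (h0 : ∀ a, s a ≤ B a) (h1 : ∀ a, ∀ b ∈ l a, ∀ x, x ≤ B a → F a x b ≤ B a) :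
    Poly (fun a => (l a).foldl (F a) (s a)) := by
  obtain ⟨r, hr⟩ := hB.sz_le
  have key : ∀ a (t : List β), (∀ b ∈ t, b ∈ l a) → ∀ x, x ≤ B a → t.foldl (F a) x ≤ B a := by
    intro a t
    induction t with
    | nil => intro _ x hx; exact hx
    | cons b t ih =>
        intro ht x hx
        rw [List.foldl_cons]
        exact ih (fun c hc => ht c (List.mem_cons_of_mem _ hc)) _
          (h1 a b (ht b List.mem_cons_self) x hx)
  refine Poly.foldl hl hs hF (Polynomial.C 2 * r) fun a k _ => ?_
  have h2 := key a ((l a).take k) (fun b hb => List.mem_of_mem_take hb) (s a) (h0 a)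
  refine (sz_nat_mono_le h2).trans ?_
  simp only [Polynomial.eval_mul, Polynomial.eval_C]
  have := hr a
  omega

theorem foldrN {l : α → List β} {s : α → ℕ} {F : α → β → ℕ → ℕ} {B : α → ℕ} (hl : Poly l)
    (hs : Poly s) (hF : Poly (fun p : α × β × ℕ => F p.1 p.2.1 p.2.2)) (hB : Poly B)
    (h0 : ∀ a, s a ≤ B a) (h1 : ∀ a, ∀ b ∈ l a, ∀ x, x ≤ B a → F a b x ≤ B a) :
    Poly (fun a => (l a).foldr (F a) (s a)) := by
  obtain ⟨r, hr⟩ := hB.sz_le
  have key : ∀ a (t : List β), (∀ b ∈ t, b ∈ l a) → t.foldr (F a) (s a) ≤ B a := by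
    intro a t
    induction t with
    | nil => intro _; exact h0 a
    | cons b t ih =>
        intro ht
        rw [List.foldr_cons]
        exact h1 a b (ht b List.mem_cons_self) _
          (ih (fun c hc => ht c (List.mem_cons_of_mem _ hc)))
  refine Poly.foldr hl hs hF (Polynomial.C 2 * r) fun a k _ => ?_
  have h2 := key a ((l a).drop k) (fun b hb => List.mem_of_mem_drop hb)
  refine (sz_nat_mono_le h2).trans ?_
  simp only [Polynomial.eval_mul, Polynomial.eval_C]
  have := hr a
  omega

theorem iterN {n : α → ℕ} {s : α → ℕ} {F : α → ℕ → ℕ} {B : α → ℕ} (hn : UPoly n)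
    (hs : Poly s) (hF : Poly (fun p : α × ℕ => F p.1 p.2)) (hB : Poly B)
    (h0 : ∀ a, s a ≤ B a) (h1 : ∀ a x, x ≤ B a → F a x ≤ B a) :
    Poly (fun a => (F a)^[n a] (s a)) := by
  obtain ⟨r, hr⟩ := hB.sz_le
  have key : ∀ a k, (F a)^[k] (s a) ≤ B a := by
    intro a k
    induction k with
    | zero => exact h0 a
    | succ k ih => rw [Function.iterate_succ_apply']; exact h1 a _ ih
  refine (Poly.iterLen (l := fun a => List.replicate (n a) ()) hn hs hF (Polynomial.C 2 * r)
    fun a k _ => ?_).congr fun a => ?_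
  · refine (sz_nat_mono_le (key a k)).trans ?_
    simp only [Polynomial.eval_mul, Polynomial.eval_C]
    have := hr a
    omega
  · rw [List.length_replicate]

theorem md_le (p x : ℕ) : md p x ≤ max p 1 := (Nat.mod_lt _ (by omega)).le

theorem poly_mx {p : α → ℕ} (hp : Poly p) : Poly (fun a => max (p a) 1) :=
  Poly.max hp (Poly.const 1)

theorem poly_md {p x : α → ℕ} (hp : Poly p) (hx : Poly x) : Poly (fun a => md (p a) (x a)) :=
  Poly.mod hx (poly_mx hp)

theorem poly_pw {p b e : α → ℕ} (hp : Poly p) (hb : Poly b) (he : Poly e) :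
    Poly (fun a => pw (p a) (b a) (e a)) := by
  refine foldrN (l := fun a => (e a).bits) (s := fun a => md (p a) 1)
    (F := fun a c acc => if c then md (p a) (acc * acc * b a) else md (p a) (acc * acc))
    (B := fun a => max (p a) 1) (Poly.natBits he) (poly_md hp (Poly.const 1)) ?_ (poly_mx hp)
    (fun a => md_le _ _) ?_
  · have hp' : Poly (fun q : α × Bool × ℕ => p q.1) := hp.comp (Poly.fst Poly.id)
    have hb' : Poly (fun q : α × Bool × ℕ => b q.1) := hb.comp (Poly.fst Poly.id)
    have hc : Poly (fun q : α × Bool × ℕ => q.2.1) := Poly.fst (Poly.snd Poly.id)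
    have hx : Poly (fun q : α × Bool × ℕ => q.2.2) := Poly.snd (Poly.snd Poly.id)
    exact Poly.ite (p := fun q : α × Bool × ℕ => q.2.1 = true) (Poly.decide_bool hc)
      (poly_md hp' (Poly.mul (Poly.mul hx hx) hb')) (poly_md hp' (Poly.mul hx hx))
  · intro a c _ x _
    split_ifs
    · exact md_le _ _
    · exact md_le _ _

theorem pw_le (p b e : ℕ) : pw p b e ≤ max p 1 := by
  unfold pw
  cases e.bits with
  | nil => exact md_le _ _
  | cons c l =>
      rw [List.foldr_cons]
      split_ifs
      · exact md_le _ _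
      · exact md_le _ _

theorem poly_strip {l k N : α → ℕ} (hl : Poly l) (hk : UPoly k) (hN : Poly N) :
    Poly (fun a => strip (l a) (k a) (N a)) := by
  refine iterN (n := k) (s := N) (F := fun a m => if m % l a = 0 then m / l a else m) (B := N)
    hk hN ?_ hN (fun a => le_rfl) ?_
  · have hl' : Poly (fun q : α × ℕ => l q.1) := hl.comp (Poly.fst Poly.id)
    have hx : Poly (fun q : α × ℕ => q.2) := Poly.snd Poly.id
    exact Poly.ite (Poly.decide_eq (Poly.mod hx hl') (Poly.const 0)) (Poly.div hx hl') hx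
  · intro a x hx
    split_ifs
    · exact (Nat.div_le_self _ _).trans hx
    · exact hx

theorem poly_horner {p Y e : α → ℕ} (hp : Poly p) (hY : UPoly Y) (he : Poly e) :
    Poly (fun a => horner (p a) (Y a) (e a)) := by
  refine foldrN (l := fun a => List.range (Y a)) (s := fun a => md (p a) 1)
    (F := fun a i acc => md (p a) ((i + 1) * pw (p a) acc (e a)))
    (B := fun a => max (p a) 1) hY.range (poly_md hp (Poly.const 1)) ?_ (poly_mx hp)
    (fun a => md_le _ _) (fun a c _ x _ => md_le _ _)
  have hp' : Poly (fun q : α × ℕ × ℕ => p q.1) := hp.comp (Poly.fst Poly.id)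
  have he' : Poly (fun q : α × ℕ × ℕ => e q.1) := he.comp (Poly.fst Poly.id)
  exact poly_md hp' (Poly.mul (Poly.succ (Poly.fst (Poly.snd Poly.id)))
    (poly_pw hp' (Poly.snd (Poly.snd Poly.id)) he'))

/-- iterated powers -/
theorem poly_itp {p n x e : α → ℕ} (hp : Poly p) (hn : UPoly n) (hx : Poly x) (he : Poly e) :
    Poly (fun a => (fun z => pw (p a) z (e a))^[n a] (x a)) := by
  refine iterN (n := n) (s := x) (F := fun a z => pw (p a) z (e a))
    (B := fun a => max (x a) (max (p a) 1)) hn hx ?_ (Poly.max hx (poly_mx hp))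
    (fun a => le_max_left _ _) (fun a z _ => (pw_le _ _ _).trans (le_max_right _ _))
  exact poly_pw (hp.comp (Poly.fst Poly.id)) (Poly.snd Poly.id) (he.comp (Poly.fst Poly.id))

theorem itp_le (p n x e : ℕ) : (fun z => pw p z e)^[n] x ≤ max x (max p 1) := by
  cases n with
  | zero => exact le_max_left _ _
  | succ n =>
      rw [Function.iterate_succ_apply']
      exact (pw_le _ _ _).trans (le_max_right _ _)

theorem poly_kill {p n L x : α → ℕ} (hp : Poly p) (hn : UPoly n) (hL : UPoly L) (hx : Poly x) :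
    Poly (fun a => kill (p a) (n a) (L a) (x a)) := by
  refine foldlN (l := fun a => List.range (L a)) (s := x)
    (F := fun a x d => (fun z => pw (p a) z (d + 1))^[n a] x)
    (B := fun a => max (x a) (max (p a) 1)) hL.range hx ?_ (Poly.max hx (poly_mx hp))
    (fun a => le_max_left _ _) ?_
  · exact poly_itp (n := fun q : α × ℕ × ℕ => n q.1) (hp.comp (Poly.fst Poly.id))
      (hn.comp (Poly.fst Poly.id)) (Poly.fst (Poly.snd Poly.id))
      (Poly.succ (Poly.snd (Poly.snd Poly.id)))
  · intro a d _ z hz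
    exact (itp_le _ _ _ _).trans (max_le hz (le_max_right _ _))

theorem better_eq (p n l b x : ℕ) : better p n l b x = (List.range (n + 1)).any fun k =>
    decide ((fun z => pw p z l)^[min k n] b = md p 1) &&
      !decide ((fun z => pw p z l)^[min k n] x = md p 1) := by
  unfold better
  rw [Bool.eq_iff_iff, List.any_eq_true, List.any_eq_true]
  constructor
  · rintro ⟨k, hk, h⟩
    have : min k n = k := by
      rw [List.mem_range] at hk
      omega
    exact ⟨k, hk, by rw [this]; exact h⟩
  · rintro ⟨k, hk, h⟩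
    have : min k n = k := by
      rw [List.mem_range] at hk
      omega
    rw [this] at h
    exact ⟨k, hk, h⟩

theorem poly_better {p n l b x : α → ℕ} (hp : Poly p) (hn : UPoly n) (hl : Poly l) (hb : Poly b)
    (hx : Poly x) : Poly (fun a => better (p a) (n a) (l a) (b a) (x a)) := by
  refine Poly.congr ?_ fun a => (better_eq _ _ _ _ _).symm
  have hp' : Poly (fun q : α × ℕ => p q.1) := hp.comp (Poly.fst Poly.id)
  have hl' : Poly (fun q : α × ℕ => l q.1) := hl.comp (Poly.fst Poly.id)
  have hb' : Poly (fun q : α × ℕ => b q.1) := hb.comp (Poly.fst Poly.id)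
  have hx' : Poly (fun q : α × ℕ => x q.1) := hx.comp (Poly.fst Poly.id)
  have hn' : UPoly (fun q : α × ℕ => n q.1) := hn.comp (Poly.fst Poly.id)
  have hm : UPoly (fun q : α × ℕ => min q.2 (n q.1)) :=
    UPoly.of_le (Poly.min (Poly.snd Poly.id) hn'.toPoly) hn' fun _ => min_le_right _ _
  refine Poly.any (l := fun a => List.range (n a + 1)) (p := fun a k =>
    decide ((fun z => pw (p a) z (l a))^[min k (n a)] (b a) = md (p a) 1) &&
      !decide ((fun z => pw (p a) z (l a))^[min k (n a)] (x a) = md (p a) 1))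
    (UPoly.add hn (UPoly.const 1)).range ?_
  have h1 : Poly (fun q : α × ℕ => md (p q.1) 1) := poly_md hp' (Poly.const 1)
  exact Poly.and (Poly.decide_eq (poly_itp hp' hm hb' hl') h1)
    (Poly.not (Poly.decide_eq (poly_itp hp' hm hx' hl') h1))

theorem poly_best {p n Y l : α → ℕ} (hp : Poly p) (hn : UPoly n) (hY : UPoly Y) (hl : Poly l) :
    Poly (fun a => best (p a) (n a) (Y a) (l a)) := by
  refine foldlN (l := fun a => (List.range (Y a)).map fun i =>
      pw (p a) (i + 1) (strip (l a) (n a) (p a - 1))) (s := fun a => md (p a) 1)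
    (F := fun a b x => if better (p a) (n a) (l a) b x then x else b)
    (B := fun a => max (p a) 1) ?_ (poly_md hp (Poly.const 1)) ?_ (poly_mx hp)
    (fun a => md_le _ _) ?_
  · refine Poly.map (l := fun a => List.range (Y a))
      (F := fun a i => pw (p a) (i + 1) (strip (l a) (n a) (p a - 1))) hY.range ?_
    have hp' : Poly (fun q : α × ℕ => p q.1) := hp.comp (Poly.fst Poly.id)
    exact poly_pw hp' (Poly.succ (Poly.snd Poly.id)) (poly_strip (hl.comp (Poly.fst Poly.id))
      (hn.comp (Poly.fst Poly.id)) (Poly.sub hp' (Poly.const 1)))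
  · have hp' : Poly (fun q : α × ℕ × ℕ => p q.1) := hp.comp (Poly.fst Poly.id)
    exact Poly.ite (p := fun q : α × ℕ × ℕ => better (p q.1) (n q.1) (l q.1) q.2.1 q.2.2 = true)
      (Poly.decide_bool (poly_better hp' (hn.comp (Poly.fst Poly.id))
        (hl.comp (Poly.fst Poly.id)) (Poly.fst (Poly.snd Poly.id)) (Poly.snd (Poly.snd Poly.id))))
      (Poly.snd (Poly.snd Poly.id)) (Poly.fst (Poly.snd Poly.id))
  · intro a x hx z hz
    obtain ⟨i, _, rfl⟩ := List.mem_map.1 hx
    split_ifs
    · exact pw_le _ _ _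
    · exact hz

theorem poly_isPr {l : α → ℕ} (hl : UPoly l) : Poly (fun a => isPr (l a)) := by
  refine Poly.and (Poly.decide_le (Poly.const 2) hl.toPoly) ?_
  refine Poly.all (l := fun a => List.range (l a)) (p := fun a d => decide (d ≤ 1) ||
    !decide (l a % d = 0)) hl.range ?_
  exact Poly.or (Poly.decide_le (Poly.snd Poly.id) (Poly.const 1)) (Poly.not (Poly.decide_eq
    (Poly.mod (hl.toPoly.comp (Poly.fst Poly.id)) (Poly.snd Poly.id)) (Poly.const 0)))

theorem small_eq (p n L Y : ℕ) : small p n L Y = (List.range (L + 1)).foldl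
    (fun acc l => if isPr (min l L) then md p (acc * best p n Y l) else acc) (md p 1) := by
  unfold small
  refine List.foldl_ext _ _ _ fun b a ha => ?_
  rw [List.mem_range] at ha
  have : min a L = a := by omega
  rw [this]

theorem poly_small {p n L Y : α → ℕ} (hp : Poly p) (hn : UPoly n) (hL : UPoly L) (hY : UPoly Y) :
    Poly (fun a => small (p a) (n a) (L a) (Y a)) := by
  refine Poly.congr ?_ fun a => (small_eq _ _ _ _).symm
  refine foldlN (l := fun a => List.range (L a + 1)) (s := fun a => md (p a) 1)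
    (F := fun a acc l => if isPr (min l (L a)) then md (p a) (acc * best (p a) (n a) (Y a) l)
      else acc) (B := fun a => max (p a) 1) (UPoly.add hL (UPoly.const 1)).range
    (poly_md hp (Poly.const 1)) ?_ (poly_mx hp) (fun a => md_le _ _) ?_
  · have hp' : Poly (fun q : α × ℕ × ℕ => p q.1) := hp.comp (Poly.fst Poly.id)
    have hL' : UPoly (fun q : α × ℕ × ℕ => L q.1) := hL.comp (Poly.fst Poly.id)
    have hl : Poly (fun q : α × ℕ × ℕ => q.2.2) := Poly.snd (Poly.snd Poly.id)
    have hx : Poly (fun q : α × ℕ × ℕ => q.2.1) := Poly.fst (Poly.snd Poly.id)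
    have hm : UPoly (fun q : α × ℕ × ℕ => min q.2.2 (L q.1)) :=
      UPoly.of_le (Poly.min hl hL'.toPoly) hL' fun _ => min_le_right _ _
    exact Poly.ite (p := fun q : α × ℕ × ℕ => isPr (min q.2.2 (L q.1)) = true)
      (Poly.decide_bool (poly_isPr hm)) (poly_md hp' (Poly.mul hx
        (poly_best hp' (hn.comp (Poly.fst Poly.id)) (hY.comp (Poly.fst Poly.id)) hl))) hx
  · intro a l _ x hx
    split_ifs
    · exact md_le _ _
    · exact hx

theorem poly_cand {p n L Y e : α → ℕ} (hp : Poly p) (hn : UPoly n) (hL : UPoly L) (hY : UPoly Y)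
    (he : Poly e) : Poly (fun a => cand (p a) (n a) (L a) (Y a) (e a)) :=
  poly_md hp (Poly.mul (poly_small hp hn hL hY) (poly_kill hp hn hL (poly_horner hp hY he)))

end

theorem upoly_size : UPoly (fun p : ℕ => p.size) :=
  Poly.congr (UPoly.length (Poly.natBits Poly.id)) fun p => by
    simp only [Nat.size_eq_bits_len]

theorem upoly_sizepow (C : ℕ) : UPoly (fun p : ℕ => p.size ^ C) :=
  Poly.congr (UPoly.eval upoly_size (Polynomial.X ^ C)) fun p => by simp

theorem poly_cands' (A C : ℕ) : Poly (fun p : ℕ => cands A C p) := by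
  refine Poly.map (l := fun p : ℕ => List.range (p.size ^ C))
    (F := fun p a => cand p p.size (p.size ^ C) (p.size ^ A) a) (upoly_sizepow C).range ?_
  exact poly_cand (Poly.fst Poly.id) (upoly_size.comp (Poly.fst Poly.id))
    ((upoly_sizepow C).comp (Poly.fst Poly.id)) ((upoly_sizepow A).comp (Poly.fst Poly.id))
    (Poly.snd Poly.id)

end Pool.Agent.NPC.H595POL

namespace Pool.Agent.H595R2.PR

/-- POL. The list of candidates is computable in polynomial time (Turing machines). -/
theorem poly_cands (A C : ℕ) : NPC.Poly (fun p : ℕ => cands A C p) :=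
  Pool.Agent.NPC.H595POL.poly_cands' A C

end Pool.Agent.H595R2.PR
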