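import Mathlib
import Pool.Agent.H595R2.PR.ALG
import Pool.Agent.H595R2.PR.COR
import Pool.Agent.H595R2.PR.POL
import Pool.Agent.H595R2.PR.POW
import Pool.Agent.NPC.Dec

/-! # The list of candidates: almost all of them generate `⟨1, …, (size p)^A⟩` -/

namespace Pool.Agent.H595R2.PR

open Finset Filter Topology Pool.Agent.NPC

theorem mem_of_pow_card {G : Type} [CommGroup G] [Finite G] [IsCyclic G] (Γ : Subgroup G) {x : G}
    (hx : x ^ Nat.card Γ = 1) : x ∈ Γ := by
  classical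
  haveI : Fintype G := Fintype.ofFinite G
  have h1 : #{a : G | a ^ Nat.card Γ = 1} ≤ Nat.card Γ := IsCyclic.card_pow_eq_one_le Nat.card_pos
  have h2 : (univ.filter fun a : G => a ∈ Γ) ⊆ (univ.filter fun a : G => a ^ Nat.card Γ = 1) := by
    intro a ha
    rw [mem_filter] at ha ⊢
    have h := pow_card_eq_one' (x := (⟨a, ha.2⟩ : Γ))
    exact ⟨mem_univ _, congrArg Subtype.val h⟩
  have h3 : #(univ.filter fun a : G => a ∈ Γ) = Nat.card Γ := by
    rw [Nat.card_eq_fintype_card, Fintype.card_subtype]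
  have h4 := eq_of_subset_of_card_le h2 (by rw [h3]; exact h1)
  have h5 : x ∈ (univ.filter fun a : G => a ∈ Γ) := by
    rw [h4, mem_filter]
    exact ⟨mem_univ _, hx⟩
  exact (mem_filter.1 h5).2

theorem zpowers_eq_of_orderOf {G : Type} [CommGroup G] [Finite G] [IsCyclic G] (Γ : Subgroup G)
    {x : G} (hx : orderOf x = Nat.card Γ) : Subgroup.zpowers x = Γ := by
  have h1 : x ∈ Γ := mem_of_pow_card Γ (by rw [← hx, pow_orderOf_eq_one])
  have h2 : Subgroup.zpowers x ≤ Γ := by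
    rw [Subgroup.zpowers_le]; exact h1
  apply Subgroup.eq_of_le_of_card_ge h2
  rw [Nat.card_zpowers, hx]

theorem card_primeFactors_le {D n : ℕ} (hD : 0 < D) (h : D < 2 ^ n) : #D.primeFactors ≤ n := by
  have h1 : 2 ^ #D.primeFactors ≤ ∏ l ∈ D.primeFactors, l := by
    rw [← prod_const]
    exact prod_le_prod' fun l hl => (Nat.prime_of_mem_primeFactors hl).two_le
  have h2 := Nat.le_of_dvd hD (Nat.prod_primeFactors_dvd D)
  exact ((Nat.pow_lt_pow_iff_right (by norm_num)).1 (lt_of_le_of_lt (h1.trans h2) h)).le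

/-- The list `cands` as a polynomial-time function on binary strings. -/
theorem polyTime_cands (A C : ℕ) : ∃ f : List Bool → List Bool, PolyTime f ∧
    ∀ p : ℕ, f (Nat.bits p) = bits (cands A C p) := by
  have h : Poly (fun x : List Bool => cands A C (valB x)) :=
    (poly_cands A C).comp (Poly.valBits Poly.id)
  exact ⟨_, polyTime_bits h, fun p => by simp only [valB_bits]⟩

theorem pow_size_lt (A : ℕ) : ∃ p₀ : ℕ, ∀ p ≥ p₀, p.size ^ A < p := by
  have h1 : ∀ᶠ n : ℕ in atTop, (n : ℝ) ^ A < (2 : ℝ) ^ n / 2 := by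
    have h2 := (isLittleO_pow_const_const_pow_of_one_lt (R := ℝ) A (r := 2) (by norm_num))
    have h3 := h2.bound (c := 1/4) (by norm_num)
    filter_upwards [h3] with n hn
    rw [Real.norm_of_nonneg (by positivity), Real.norm_of_nonneg (by positivity)] at hn
    have : (0:ℝ) < 2 ^ n := by positivity
    linarith
  obtain ⟨n₀, hn₀⟩ := eventually_atTop.1 h1
  refine ⟨2 ^ n₀, fun p hp => ?_⟩
  have h4 : n₀ < p.size := Nat.lt_size.2 hp
  have h5 := hn₀ p.size h4.le
  have h6 : 2 ^ (p.size - 1) ≤ p := by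
    apply Nat.lt_size.1
    omega
  have h7 : (2 : ℝ) ^ p.size / 2 = 2 ^ (p.size - 1) := by
    obtain ⟨k, hk⟩ : ∃ k, p.size = k + 1 := ⟨p.size - 1, by omega⟩
    rw [hk, pow_succ]; simp
  rw [h7] at h5
  have h8 : ((p.size ^ A : ℕ) : ℝ) < ((2 ^ (p.size - 1) : ℕ) : ℝ) := by push_cast; exact h5
  exact lt_of_lt_of_le (by exact_mod_cast h8) h6

/-- The candidate with index `a` generates the group generated by `1, …, (size p)^A`. -/
def Gen (A C p a : ℕ) : Prop :=
  ∃ u : (ZMod p)ˣ, (u : ZMod p) = (((cands A C p).getD a 0 : ℕ) : ZMod p) ∧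
    Subgroup.zpowers u = Gam p (p.size ^ A)

open Classical in
/-- For every large prime `p` all but `(size p)^(A+1)` candidates generate the group
`⟨1, …, (size p)^A⟩`. -/
theorem core (A C : ℕ) : ∃ p₀ : ℕ, ∀ p : ℕ, p₀ ≤ p → p.Prime →
    #{a ∈ range (p.size ^ C) | ¬ Gen A C p a} ≤ p.size ^ A * p.size := by
  obtain ⟨p₀, hp₀⟩ := pow_size_lt A
  refine ⟨p₀, fun p hp hpp => ?_⟩
  haveI : Fact p.Prime := ⟨hpp⟩
  have hY := hp₀ p hp
  obtain ⟨t, b, E, -, hΓ, hb, hE, hE', hc⟩ := cand_eq (p := p) (n := p.size) (L := p.size ^ C)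
    hY (Nat.lt_size_self p)
  have h1 := main_alg t (p.size ^ A) (p.size ^ C) (Gam p (p.size ^ A)) hΓ b hb E hE hE'
  have h2 : #{l ∈ (Nat.card (Gam p (p.size ^ A))).primeFactors | p.size ^ C < l} ≤ p.size := by
    refine (card_filter_le _ _).trans (card_primeFactors_le Nat.card_pos ?_)
    refine lt_of_le_of_lt (Subgroup.card_le_card_group _) ?_
    rw [Nat.card_eq_fintype_card, ZMod.card_units]
    exact lt_of_le_of_lt (Nat.sub_le _ _) (Nat.lt_size_self p)
  refine le_trans (card_le_card ?_) (h1.trans (Nat.mul_le_mul (Nat.sub_le _ _) h2))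
  intro a ha
  obtain ⟨ha1, ha2⟩ := mem_filter.1 ha
  refine mem_filter.2 ⟨ha1, fun hord => ha2 ⟨_, ?_, zpowers_eq_of_orderOf _ hord⟩⟩
  rw [← hc a]
  congr 1
  unfold cands
  rw [List.getD_eq_getElem?_getD, List.getElem?_map, List.getElem?_range (by simpa using ha1)]
  rfl

end Pool.Agent.H595R2.PR
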