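import Mathlib
import Pool.Agent.H595R2.PR.Gam
import Pool.Agent.H386R2.Artin.BadCount
import Pool.Agent.H386R2.Artin.FewBad

/-!
For all but `x ^ ε` primes `p ≤ x` the numbers up to `(size p) ^ A` generate the whole group.
-/

namespace Pool.Agent.H595R2.PR

open Finset Filter Topology Pool.Agent.H386R2.Artin
open scoped Nat

theorem FEW.exists_char {p Y : ℕ} [Fact p.Prime] (hY : Y < p) (h : Gam p Y ≠ ⊤) :
    ∃ χ : DirichletCharacter ℂ p, χ ≠ 1 ∧ ∀ i : ℕ, 1 ≤ i → i ≤ Y → χ (i : ZMod p) = 1 := by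
  obtain ⟨u, hu⟩ : ∃ u : (ZMod p)ˣ, u ∉ Gam p Y := by
    by_contra hcon
    push Not at hcon
    exact h ((Subgroup.eq_top_iff' _).2 hcon)
  have hu1 : (QuotientGroup.mk u : (ZMod p)ˣ ⧸ Gam p Y) ≠ 1 := by
    intro h1
    exact hu ((QuotientGroup.eq_one_iff u).1 h1)
  obtain ⟨psi, hpsi⟩ := CommGroup.exists_apply_ne_one_of_hasEnoughRootsOfUnity
    ((ZMod p)ˣ ⧸ Gam p Y) ℂ hu1
  refine ⟨MulChar.ofUnitHom (psi.comp (QuotientGroup.mk' (Gam p Y))), ?_, ?_⟩
  · intro h1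
    apply hpsi
    have h2 := congrArg (fun χ : MulChar (ZMod p) ℂ => χ (u : ZMod p)) h1
    simp only [MulChar.ofUnitHom_coe, MulChar.one_apply_coe] at h2
    exact Units.ext h2
  · intro i hi1 hiY
    have hne : ((i : ℕ) : ZMod p) ≠ 0 := by
      intro h0
      rw [ZMod.natCast_eq_zero_iff] at h0
      have := Nat.le_of_dvd (by omega) h0
      omega
    have hv : ((Units.mk0 (i : ZMod p) hne : (ZMod p)ˣ) : ZMod p) = (i : ZMod p) := rfl
    rw [← hv, MulChar.ofUnitHom_coe]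
    have hmem : (Units.mk0 (i : ZMod p) hne : (ZMod p)ˣ) ∈ Gam p Y := by
      apply Subgroup.subset_closure
      refine ⟨i - 1, by omega, ?_⟩
      rw [hv]
      congr 1
      omega
    have h1 : (QuotientGroup.mk' (Gam p Y)) (Units.mk0 (i : ZMod p) hne) = 1 :=
      (QuotientGroup.eq_one_iff _).2 hmem
    rw [MonoidHom.comp_apply, h1, map_one]
    rfl

theorem FEW.size_pow_lt (A : ℕ) : ∃ p₀ : ℕ, ∀ p : ℕ, p₀ ≤ p → p.size ^ A < p := by
  have h1 := tendsto_pow_const_div_const_pow_of_one_lt A (show (1 : ℝ) < 2 by norm_num)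
  have h2 := (tendsto_order.1 h1).2 (1 / 2) (by norm_num)
  obtain ⟨S₀, hS⟩ := eventually_atTop.1 h2
  refine ⟨2 ^ (S₀ + 1), fun p hp => ?_⟩
  have h3 : S₀ + 1 < p.size := Nat.lt_size.2 hp
  have h4 := hS p.size (by omega)
  have h5 : 2 ^ (p.size - 1) ≤ p := Nat.lt_size.1 (by omega)
  have h6 : (p.size : ℝ) ^ A < 2 ^ (p.size - 1) := by
    rw [div_lt_iff₀ (by positivity)] at h4
    have h7 : (2 : ℝ) ^ p.size = 2 ^ (p.size - 1) * 2 := by
      rw [← pow_succ]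
      congr 1
      omega
    rw [h7] at h4
    linarith
  have h8 : p.size ^ A < 2 ^ (p.size - 1) := by exact_mod_cast h6
  exact lt_of_lt_of_le h8 h5

theorem FEW.not_good {p Y y : ℕ} (hp : p.Prime) (hYp : Y < p) (hyY : y ≤ Y) (h : Gam p Y ≠ ⊤)
    (he : 0 < (#(PP y) : ℝ)) : ¬ Good (PP y) (#(PP y) / 2) p := by
  have : Fact p.Prime := ⟨hp⟩
  obtain ⟨χ, hχ, hχ1⟩ := FEW.exists_char hYp h
  intro hG
  have h1 := hG χ hχ
  have h2 : ∑ q ∈ PP y, χ (q : ZMod p) = (#(PP y) : ℂ) := by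
    have h3 : ∑ q ∈ PP y, χ (q : ZMod p) = ∑ q ∈ PP y, (1 : ℂ) := by
      refine sum_congr rfl fun q hq => ?_
      rw [PP, mem_filter, mem_range] at hq
      exact hχ1 q hq.2.one_le (by omega)
    rw [h3]
    simp
  rw [h2, Complex.norm_natCast] at h1
  linarith

theorem FEW.ev (ε : ℝ) (hε : 0 < ε) (A y₀ p₀ : ℕ) : ∀ᶠ x : ℕ in atTop,
    (24 ≤ Real.log x ∧ (y₀ : ℝ) ≤ Real.log x ∧ (2 / ε) ^ A ≤ Real.log x) ∧
    Real.log 288 + Real.log (Real.log x) ≤ ε / 4 * Real.log x ∧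
    (A : ℝ) * Real.log (Real.log x) ≤ Real.log x ∧
    ((p₀ : ℝ) ≤ (x : ℝ) ^ (ε / 2) ∧ 2 ≤ (x : ℝ) ^ (ε / 2)) := by
  have hx : Tendsto (fun x : ℕ => Real.log (x : ℝ)) atTop atTop :=
    Real.tendsto_log_atTop.comp tendsto_natCast_atTop_atTop
  have hlog : ∀ c : ℝ, Tendsto (fun t : ℝ => (c + Real.log t) / t) atTop (𝓝 0) := by
    intro c
    have h3 : Tendsto (fun t : ℝ => Real.log t / t) atTop (𝓝 0) := by
      simpa using Real.isLittleO_log_id_atTop.tendsto_div_nhds_zero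
    have h4 : Tendsto (fun t : ℝ => c / t) atTop (𝓝 0) :=
      tendsto_const_nhds.div_atTop tendsto_id
    have h5 := h4.add h3
    simp only [add_zero] at h5
    refine h5.congr fun t => ?_
    ring
  have h1 := ((hlog (Real.log 288)).comp hx).eventually (gt_mem_nhds (show (0:ℝ) < ε / 4 by positivity))
  have h2 := ((hlog 0).comp hx).eventually
    (gt_mem_nhds (show (0:ℝ) < 1 / (A + 1) by positivity))
  have h3 := hx.eventually_ge_atTop (max 24 (max (y₀ : ℝ) ((2 / ε) ^ A)))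
  have h4 : Tendsto (fun x : ℕ => (x : ℝ) ^ (ε / 2)) atTop atTop :=
    (tendsto_rpow_atTop (by positivity)).comp tendsto_natCast_atTop_atTop
  have h5 := h4.eventually_ge_atTop (max (p₀ : ℝ) 2)
  filter_upwards [h1, h2, h3, h5] with x h1 h2 h3 h5
  have h6 : 24 ≤ Real.log x := le_trans (le_max_left _ _) h3
  have h7 := le_trans (le_max_right _ _) h3
  refine ⟨⟨h6, le_trans (le_max_left _ _) h7, le_trans (le_max_right _ _) h7⟩, ?_, ?_,
    le_trans (le_max_left _ _) h5, le_trans (le_max_right _ _) h5⟩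
  · simp only [Function.comp] at h1
    rw [div_lt_iff₀ (by linarith)] at h1
    exact h1.le
  · simp only [Function.comp] at h2
    rw [div_lt_iff₀ (by linarith)] at h2
    have h8 : (1 : ℝ) / (A + 1) * Real.log x * (A + 1) = Real.log x := by
      field_simp
    have h9 : 0 ≤ Real.log (Real.log x) := Real.log_nonneg (by linarith)
    have h10 : (0 + Real.log (Real.log x)) * (A + 1) ≤ 1 / (A + 1) * Real.log x * (A + 1) := by
      apply mul_le_mul_of_nonneg_right h2.le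
      positivity
    rw [h8] at h10
    nlinarith

open Classical in
/-- the main estimate (with `ε ≤ 1` not needed) -/
theorem FEW.main (ε : ℝ) (hε : 0 < ε) (a : ℕ) (ha : 16 / ε ≤ a) (y₀ p₀ : ℕ)
    (hy₀ : ∀ y : ℕ, y₀ ≤ y → (y : ℝ) / (2 * Real.log y) ≤ Nat.primeCounting y)
    (hp₀ : ∀ p : ℕ, p₀ ≤ p → p.size ^ (a + 2) < p) (x : ℕ)
    (h24 : 24 ≤ Real.log x) (hXy : (y₀ : ℝ) ≤ Real.log x)
    (hXA : (2 / ε) ^ (a + 2) ≤ Real.log x)
    (h288 : Real.log 288 + Real.log (Real.log x) ≤ ε / 4 * Real.log x)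
    (hA : ((a + 2 : ℕ) : ℝ) * Real.log (Real.log x) ≤ Real.log x)
    (hxp : (p₀ : ℝ) ≤ (x : ℝ) ^ (ε / 2)) (hx2 : 2 ≤ (x : ℝ) ^ (ε / 2)) :
    (#{p ∈ range (x + 1) | p.Prime ∧ Gam p (p.size ^ (a + 2)) ≠ ⊤} : ℝ) ≤ (x : ℝ) ^ ε := by
  set X : ℝ := Real.log x with hX
  set LL : ℝ := Real.log X with hLLd
  have hX0 : 0 < X := by linarith
  have ha0 : (0 : ℝ) < a := lt_of_lt_of_le (by positivity) ha
  have ha1 : 1 ≤ a := by
    have : 0 < a := by exact_mod_cast ha0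
    omega
  have hx1 : (1 : ℝ) < x := by
    by_contra hcon
    have : X ≤ 0 := by
      rcases Nat.eq_zero_or_pos x with h0 | h0
      · rw [hX, h0]; simp
      · have : (1 : ℝ) ≤ x := by exact_mod_cast h0
        have h1 : (x : ℝ) = 1 := by push Not at hcon; linarith
        rw [hX, h1]; simp
    linarith
  have hx0 : (0 : ℝ) < x := by linarith
  have hLL24 : Real.log 24 ≤ LL := Real.log_le_log (by norm_num) h24
  have hLL0 : 0 < LL := lt_of_lt_of_le (Real.log_pos (by norm_num)) hLL24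
  -- y
  set y : ℕ := ⌊X ^ (a + 1)⌋₊ with hy
  have hyle : (y : ℝ) ≤ X ^ (a + 1) := Nat.floor_le (by positivity)
  have hyge : X ^ a ≤ (y : ℝ) := by
    have h1 : X ^ (a + 1) < y + 1 := Nat.lt_floor_add_one _
    have h2 : 1 ≤ X ^ a := one_le_pow₀ (by linarith)
    have h3 : X ^ (a + 1) = X ^ a * X := pow_succ _ _
    nlinarith
  have hyX : X ≤ (y : ℝ) := by
    refine le_trans ?_ hyge
    calc X = X ^ 1 := (pow_one _).symm
      _ ≤ X ^ a := pow_le_pow_right₀ (by linarith) ha1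
  have hyy0 : y₀ ≤ y := by exact_mod_cast le_trans hXy hyX
  have hy3' : (24 : ℝ) ≤ y := by linarith
  have hy0 : (0 : ℝ) < y := by linarith
  set Y : ℝ := Real.log y with hY
  have hY0 : 0 < Y := Real.log_pos (by linarith)
  have hYX : Y ≤ X := by
    have h1 : Y ≤ Real.log (X ^ (a + 1)) := Real.log_le_log hy0 hyle
    rw [Real.log_pow] at h1
    have h2 : ((a + 1 : ℕ) : ℝ) * LL ≤ ((a + 2 : ℕ) : ℝ) * LL := by
      apply mul_le_mul_of_nonneg_right _ hLL0.le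
      push_cast
      linarith
    linarith
  have hYL : (a : ℝ) * LL ≤ Y := by
    have := Real.log_le_log (pow_pos hX0 _) hyge
    rwa [Real.log_pow] at this
  have hpi := hy₀ y hyy0
  -- size of E
  have hcard : #(PP y) = Nat.primeCounting y := by
    rw [PP, Nat.primeCounting, Nat.primeCounting', Nat.count_eq_card_filter_range]
  set e : ℝ := (#(PP y) : ℝ) with he
  have he1 : (y : ℝ) / (2 * Y) ≤ e := by rw [he, hcard]; exact hpi
  have he0 : 0 < e := lt_of_lt_of_le (by positivity) he1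
  -- r
  set r : ℕ := ⌈2 * X / Y⌉₊ with hr
  have hr1 : 2 * X / Y ≤ r := Nat.le_ceil _
  have hr2 : (r : ℝ) ≤ 2 * X / Y + 1 := (Nat.ceil_lt_add_one (by positivity)).le
  have hr3 : (r : ℝ) ≤ 3 * X / Y := by
    have : 1 ≤ X / Y := by rw [le_div_iff₀ hY0]; linarith
    calc (r : ℝ) ≤ 2 * X / Y + 1 := hr2
      _ ≤ 2 * X / Y + X / Y := by linarith
      _ = 3 * X / Y := by ring
  have hpow : x ^ 2 ≤ y ^ r := by
    have h1 : Real.log ((x : ℝ) ^ 2) ≤ Real.log ((y : ℝ) ^ r) := by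
      rw [Real.log_pow, Real.log_pow]
      rw [div_le_iff₀ hY0] at hr1
      push_cast
      exact hr1
    have h2 := (Real.log_le_log_iff (by positivity) (by positivity)).1 h1
    exact_mod_cast h2
  have hB := badCount (PP y) y x r (e / 2) (fun q hq => by
      rw [PP, mem_filter, mem_range] at hq
      exact ⟨hq.2, by omega⟩) (by positivity) hpow
  set B : ℝ := (#{p ∈ PP x | ¬ Good (PP y) (e / 2) p} : ℝ) with hBdef
  set K : ℝ := 24 * X with hK
  have hK0 : 0 < K := by positivity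
  -- y r e ≤ K M²
  have key : (y : ℝ) * r * e ≤ K * (e / 2) ^ 2 := by
    have h1 : K * (e / 2) ^ 2 = 6 * X * e * e := by
      rw [hK]; ring
    rw [h1]
    apply mul_le_mul_of_nonneg_right _ he0.le
    calc (y : ℝ) * r ≤ y * (3 * X / Y) := by gcongr
      _ = 6 * X * (y / (2 * Y)) := by field_simp; ring
      _ ≤ 6 * X * e := by gcongr
  have hfac : (r ! : ℝ) ≤ (r : ℝ) ^ r := by exact_mod_cast Nat.factorial_le_pow r
  have hB2 : B * ((e / 2) ^ 2) ^ r ≤ 12 * K ^ r * ((e / 2) ^ 2) ^ r := by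
    calc B * ((e / 2) ^ 2) ^ r = B * (e / 2) ^ (2 * r) := by rw [← pow_mul]
      _ ≤ 12 * (y : ℝ) ^ r * (r ! : ℝ) * e ^ r := hB
      _ ≤ 12 * (y : ℝ) ^ r * (r : ℝ) ^ r * e ^ r := by gcongr
      _ = 12 * ((y : ℝ) * r * e) ^ r := by rw [mul_pow, mul_pow]; ring
      _ ≤ 12 * (K * (e / 2) ^ 2) ^ r := by gcongr
      _ = 12 * K ^ r * ((e / 2) ^ 2) ^ r := by rw [mul_pow]; ring
  have hB3 : B ≤ 12 * K ^ r := le_of_mul_le_mul_right hB2 (by positivity)
  have hlogK : Real.log K = Real.log 24 + LL := by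
    rw [hK, Real.log_mul (by norm_num) (by positivity)]
  have hlog24 : 0 ≤ Real.log 24 := Real.log_nonneg (by norm_num)
  have hlog : Real.log (12 * K ^ r) ≤ ε / 2 * X := by
    rw [Real.log_mul (by norm_num) (by positivity), Real.log_pow]
    have h1 : (r : ℝ) ≤ 2 * X / (a * LL) + 1 := by
      refine le_trans hr2 ?_
      gcongr
    have h2 : (r : ℝ) * Real.log K ≤ 2 * X / (a * LL) * (2 * LL) + (Real.log 24 + LL) := by
      rw [hlogK]
      calc (r : ℝ) * (Real.log 24 + LL) ≤ (2 * X / (a * LL) + 1) * (Real.log 24 + LL) := by gcongr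
        _ = 2 * X / (a * LL) * (Real.log 24 + LL) + (Real.log 24 + LL) := by ring
        _ ≤ 2 * X / (a * LL) * (2 * LL) + (Real.log 24 + LL) := by
          have : Real.log 24 + LL ≤ 2 * LL := by linarith
          gcongr
    have h3 : 2 * X / (a * LL) * (2 * LL) = 4 / a * X := by
      field_simp
      ring
    have h4 : 4 / (a : ℝ) ≤ ε / 4 := by
      rw [div_le_iff₀ ha0]
      have ha' : 16 ≤ (a : ℝ) * ε := (div_le_iff₀ hε).1 ha
      linarith
    have h5 : 4 / (a : ℝ) * X ≤ ε / 4 * X := by gcongr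
    have h8 : Real.log 12 + Real.log 24 = Real.log 288 := by
      rw [← Real.log_mul (by norm_num) (by norm_num)]; norm_num
    have h9 : ε / 2 * X = ε / 4 * X + ε / 4 * X := by ring
    rw [h3] at h2
    linarith
  have hxe : (x : ℝ) ^ (ε / 2) = Real.exp (ε / 2 * X) := by
    rw [Real.rpow_def_of_pos hx0, mul_comm]
  have hBx : B ≤ (x : ℝ) ^ (ε / 2) := by
    refine le_trans hB3 ?_
    calc 12 * K ^ r = Real.exp (Real.log (12 * K ^ r)) := (Real.exp_log (by positivity)).symm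
      _ ≤ Real.exp (ε / 2 * X) := Real.exp_le_exp.2 hlog
      _ = (x : ℝ) ^ (ε / 2) := hxe.symm
  -- decomposition
  have hsub : (range (x + 1)).filter (fun p => p.Prime ∧ Gam p (p.size ^ (a + 2)) ≠ ⊤) ⊆
      Icc 1 ⌊(x : ℝ) ^ (ε / 2)⌋₊ ∪ (PP x).filter (fun p => ¬ Good (PP y) (e / 2) p) := by
    intro p hp
    rw [mem_filter, mem_range] at hp
    obtain ⟨hpx, hpp, hG⟩ := hp
    rw [mem_union]
    by_cases hpe : (p : ℝ) ≤ (x : ℝ) ^ (ε / 2)
    · left
      rw [mem_Icc]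
      exact ⟨hpp.one_le, Nat.le_floor hpe⟩
    · right
      push Not at hpe
      rw [mem_filter]
      refine ⟨by rw [PP, mem_filter, mem_range]; exact ⟨hpx, hpp⟩, ?_⟩
      have hp1 : p₀ ≤ p := by
        have : (p₀ : ℝ) ≤ p := by linarith
        exact_mod_cast this
      have hYp := hp₀ p hp1
      refine FEW.not_good hpp hYp ?_ hG he0
      -- y ≤ size p ^ (a+2)
      have h1 : ε / 2 * X < Real.log p := by
        have := Real.log_lt_log (by positivity) hpe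
        rwa [Real.log_rpow hx0] at this
      have h2 : Real.log p ≤ p.size := by
        have h3 : (p : ℝ) ≤ 2 ^ p.size := by exact_mod_cast (Nat.lt_size_self p).le
        have h4 : Real.log p ≤ Real.log ((2 : ℝ) ^ p.size) :=
          Real.log_le_log (by exact_mod_cast hpp.pos) h3
        rw [Real.log_pow] at h4
        have h5 : Real.log 2 ≤ 1 := by
          have := Real.log_two_lt_d9
          linarith
        have h6 : (p.size : ℝ) * Real.log 2 ≤ p.size * 1 := by gcongr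
        linarith
      have h3 : ε / 2 * X ≤ p.size := by linarith
      have h4 : (ε / 2 * X) ^ (a + 2) ≤ (p.size : ℝ) ^ (a + 2) := by gcongr
      have h5 : X ^ (a + 1) ≤ (ε / 2 * X) ^ (a + 2) := by
        have h6 : (ε / 2) ^ (a + 2) * (2 / ε) ^ (a + 2) = 1 := by
          rw [← mul_pow]
          have : ε / 2 * (2 / ε) = 1 := by field_simp
          rw [this, one_pow]
        rw [mul_pow]
        calc X ^ (a + 1) = (ε / 2) ^ (a + 2) * (2 / ε) ^ (a + 2) * X ^ (a + 1) := by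
              rw [h6, one_mul]
          _ ≤ (ε / 2) ^ (a + 2) * X * X ^ (a + 1) := by gcongr
          _ = (ε / 2) ^ (a + 2) * X ^ (a + 2) := by ring
      have h7 : (y : ℝ) ≤ ((p.size ^ (a + 2) : ℕ) : ℝ) := by
        push_cast
        linarith
      exact_mod_cast h7
  have hc := Finset.card_le_card hsub
  have hc2 := hc.trans (Finset.card_union_le _ _)
  rw [Nat.card_Icc, Nat.add_sub_cancel] at hc2
  have hc3 : (#{p ∈ range (x + 1) | p.Prime ∧ Gam p (p.size ^ (a + 2)) ≠ ⊤} : ℝ) ≤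
      (⌊(x : ℝ) ^ (ε / 2)⌋₊ : ℝ) + B := by
    rw [hBdef]
    exact_mod_cast hc2
  have hfl : (⌊(x : ℝ) ^ (ε / 2)⌋₊ : ℝ) ≤ (x : ℝ) ^ (ε / 2) := Nat.floor_le (by positivity)
  have hsq : (x : ℝ) ^ ε = (x : ℝ) ^ (ε / 2) * (x : ℝ) ^ (ε / 2) := by
    rw [← Real.rpow_add hx0]
    congr 1
    ring
  rw [hsq]
  have hmul : 2 * (x : ℝ) ^ (ε / 2) ≤ (x : ℝ) ^ (ε / 2) * (x : ℝ) ^ (ε / 2) :=
    mul_le_mul_of_nonneg_right hx2 (by positivity)
  linarith

open Classical in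
/-- FEW. For all but `x ^ ε` primes `p ≤ x` it is everything. -/
theorem Gam_top (ε : ℝ) (hε : 0 < ε) : ∃ A₀ : ℕ, ∀ A : ℕ, A₀ ≤ A → ∃ x₀ : ℕ, ∀ x : ℕ, x₀ ≤ x →
    (#{p ∈ range (x + 1) | p.Prime ∧ Gam p (p.size ^ A) ≠ ⊤} : ℝ) ≤ (x : ℝ) ^ ε := by
  obtain ⟨y₀, -, hy₀⟩ := pi_lower
  refine ⟨⌈16 / ε⌉₊ + 2, fun A hA => ?_⟩
  obtain ⟨a, rfl⟩ : ∃ a, A = a + 2 := ⟨A - 2, by omega⟩
  obtain ⟨p₀, hp₀⟩ := FEW.size_pow_lt (a + 2)
  obtain ⟨x₀, hx₀⟩ := eventually_atTop.1 (FEW.ev ε hε (a + 2) y₀ p₀)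
  refine ⟨x₀, fun x hx => ?_⟩
  obtain ⟨⟨h1, h2, h3⟩, h4, h5, h6, h7⟩ := hx₀ x hx
  have ha : 16 / ε ≤ a := by
    refine (Nat.le_ceil _).trans ?_
    exact_mod_cast (by omega : ⌈16 / ε⌉₊ ≤ a)
  exact FEW.main ε hε a ha y₀ p₀ hy₀ hp₀ x h1 h2 h3 h4 h5 h6 h7

end Pool.Agent.H595R2.PR
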