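import Mathlib
import Pool.Agent.H595R2.PR.Gam
import Pool.Agent.Cov.PNT
import Pool.Agent.H595R2.PR.CNT

/-! SIZ: the group generated by small numbers is large. -/

namespace Pool.Agent.H595R2.PR

open Finset Filter

theorem siz_pi_lower : ∃ y₀ : ℕ, 3 ≤ y₀ ∧ ∀ y : ℕ, y₀ ≤ y →
    (y : ℝ) / (2 * Real.log y) ≤ Nat.primeCounting y := by
  have h1 := (tendsto_order.1 Pool.Agent.Cov.PNT.pi_tendsto).1 (1/2) (by norm_num)
  have h2 := (tendsto_natCast_atTop_atTop (R := ℝ)).eventually h1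
  obtain ⟨y₀, h3⟩ := eventually_atTop.1 h2
  refine ⟨max y₀ 3, le_max_right _ _, fun y hy => ?_⟩
  have h4 := h3 y (le_trans (le_max_left _ _) hy)
  have h5 : (3 : ℝ) ≤ y := by exact_mod_cast le_trans (le_max_right _ _) hy
  simp only [Nat.floor_natCast] at h4
  have h6 : 0 < Real.log y := Real.log_pos (by linarith)
  rw [lt_div_iff₀ (by linarith)] at h4
  rw [div_le_iff₀ (by positivity)]
  nlinarith

theorem siz_core (hCNT : ∀ (p Y u : ℕ) [Fact p.Prime], Y < p → Y ^ u < p →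
      (Nat.primeCounting Y) ^ u ≤ u.factorial * Nat.card (Gam p Y))
    (ε : ℝ) (hε : 0 < ε) : ∃ A₀ : ℕ, ∀ A : ℕ, A₀ ≤ A → ∃ p₀ : ℕ, ∀ p : ℕ, p₀ ≤ p →
    p.Prime → (p : ℝ) ^ (1 - ε) ≤ (Nat.card (Gam p (p.size ^ A)) : ℝ) := by
  refine ⟨⌈4 / ε⌉₊ + 2, fun A hA => ?_⟩
  have hA2 : 2 ≤ A := by omega
  have hAε : 4 ≤ (A : ℝ) * ε := by
    have h1 : 4 / ε ≤ (⌈4 / ε⌉₊ : ℝ) := Nat.le_ceil _
    have h2 : ((⌈4 / ε⌉₊ + 2 : ℕ) : ℝ) ≤ A := by exact_mod_cast hA
    push_cast at h2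
    have h3 : 4 / ε ≤ A := by linarith
    rwa [div_le_iff₀ hε] at h3
  obtain ⟨y₀, hy3, hy₀⟩ := siz_pi_lower
  -- eventual inequalities
  have ev1 : ∀ᶠ n : ℕ in atTop, 2 * (A : ℝ) * Real.log n ≤ n := by
    have h1 := (Real.isLittleO_log_id_atTop.comp_tendsto tendsto_natCast_atTop_atTop).bound
      (show (0 : ℝ) < 1 / (2 * A) by positivity)
    filter_upwards [h1, eventually_ge_atTop 1] with n hn hn1
    have hn1' : (1 : ℝ) ≤ n := by exact_mod_cast hn1
    simp only [Function.comp, id, Real.norm_eq_abs] at hn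
    rw [abs_of_nonneg (Real.log_nonneg hn1'), abs_of_nonneg (by linarith)] at hn
    have hA0 : (0 : ℝ) < 2 * A := by positivity
    calc 2 * (A : ℝ) * Real.log n ≤ 2 * A * (1 / (2 * A) * n) :=
          mul_le_mul_of_nonneg_left hn hA0.le
      _ = n := by field_simp
  have ev2 : ∀ᶠ n : ℕ in atTop, 2 * (n : ℝ) ^ (A * A + 1) < (2 : ℝ) ^ n := by
    have h1 := tendsto_pow_const_div_const_pow_of_one_lt (A * A + 1) (r := (2 : ℝ)) (by norm_num)
    have h2 := h1.eventually (gt_mem_nhds (show (0 : ℝ) < 1 / 2 by norm_num))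
    filter_upwards [h2] with n hn
    rw [div_lt_iff₀ (by positivity)] at hn
    linarith
  have ev3 : ∀ᶠ n : ℕ in atTop, y₀ ≤ n := eventually_ge_atTop y₀
  obtain ⟨n₀, hn₀⟩ := eventually_atTop.1 (ev1.and (ev2.and ev3))
  refine ⟨2 ^ n₀, fun p hp0 hp => ?_⟩
  haveI : Fact p.Prime := ⟨hp⟩
  set n := p.size with hn
  have hnn₀ : n₀ < n := Nat.lt_size.2 hp0
  obtain ⟨e1, e2, e3⟩ := hn₀ n hnn₀.le
  have hn3 : 3 ≤ n := hy3.trans e3
  have hn1 : 1 ≤ n := by omega
  have hpn : p < 2 ^ n := Nat.lt_size_self p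
  have hpn' : 2 ^ (n - 1) ≤ p := Nat.lt_size.1 (by omega)
  -- trivial case
  by_cases hε1 : 1 ≤ ε
  · have h1 : (p : ℝ) ^ (1 - ε) ≤ 1 := by
      apply Real.rpow_le_one_of_one_le_of_nonpos
      · exact_mod_cast hp.one_lt.le
      · linarith
    have h2 : 1 ≤ Nat.card (Gam p (n ^ A)) := Nat.card_pos
    calc (p : ℝ) ^ (1 - ε) ≤ 1 := h1
      _ ≤ _ := by exact_mod_cast h2
  push Not at hε1
  set Y := n ^ A with hY
  have hYA : n ^ (A * A + 1) < p := by
    have h1 : (2 : ℝ) * (n : ℝ) ^ (A * A + 1) < 2 * 2 ^ (n - 1) := by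
      have : (2 : ℝ) ^ n = 2 * 2 ^ (n - 1) := by
        rw [← pow_succ']
        congr 1
        omega
      rw [← this]; exact e2
    have h2 : (n : ℝ) ^ (A * A + 1) < 2 ^ (n - 1) := by linarith
    have h3 : n ^ (A * A + 1) < 2 ^ (n - 1) := by exact_mod_cast h2
    omega
  have hYA' : Y ^ A < p := by
    rw [hY, ← pow_mul]
    exact lt_of_le_of_lt (Nat.pow_le_pow_right (by omega) (by omega)) hYA
  have hYp : Y < p := by
    refine lt_of_le_of_lt ?_ hYA'
    calc Y = Y ^ 1 := (pow_one Y).symm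
      _ ≤ Y ^ A := Nat.pow_le_pow_right (Nat.pow_pos (by omega)) (by omega)
  have hY2 : 2 ≤ Y := by
    calc 2 ≤ n := by omega
      _ = n ^ 1 := (pow_one n).symm
      _ ≤ n ^ A := Nat.pow_le_pow_right (by omega) (by omega)
  have hYn : n ≤ Y := by
    calc n = n ^ 1 := (pow_one n).symm
      _ ≤ n ^ A := Nat.pow_le_pow_right (by omega) (by omega)
  set u := Nat.log Y (p - 1) with hu
  have hp1 : p - 1 ≠ 0 := by have := hp.two_le; omega
  have hu1 : Y ^ u ≤ p - 1 := Nat.pow_log_le_self Y hp1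
  have hu2 : p - 1 < Y ^ (u + 1) := Nat.lt_pow_succ_log_self (by omega) (p - 1)
  have hup : Y ^ u < p := by have := hp.two_le; omega
  have hpu : p ≤ Y ^ (u + 1) := by omega
  have huA : A ≤ u := Nat.le_log_of_pow_le (by omega) (by omega)
  have hun : u ≤ n := by
    have h1 : 2 ^ u < 2 ^ n := by
      calc 2 ^ u ≤ Y ^ u := Nat.pow_le_pow_left hY2 u
        _ < p := hup
        _ < 2 ^ n := hpn
    exact (Nat.pow_lt_pow_iff_right (by norm_num)).1 h1 |>.le
  have hcnt := hCNT p Y u hYp hup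
  -- prime counting
  have hpi : n ^ (A - 1) ≤ Nat.primeCounting Y := by
    have h1 := hy₀ Y (e3.trans hYn)
    have hn1' : (1 : ℝ) < n := by exact_mod_cast (by omega : 1 < n)
    have hlogn : 0 < Real.log n := Real.log_pos hn1'
    have h2 : Real.log (Y : ℝ) = A * Real.log n := by
      rw [hY]; push_cast; rw [Real.log_pow]
    rw [h2] at h1
    have hA0 : (0 : ℝ) < A := by positivity
    have h3 : (n : ℝ) ^ (A - 1) ≤ (Y : ℝ) / (2 * (A * Real.log n)) := by
      rw [le_div_iff₀ (by positivity)]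
      have h4 : (Y : ℝ) = (n : ℝ) ^ (A - 1) * n := by
        rw [hY]; push_cast
        rw [← pow_succ]; congr 1; omega
      rw [h4]
      apply mul_le_mul_of_nonneg_left _ (by positivity)
      linarith
    exact_mod_cast h3.trans h1
  have hfac : u.factorial ≤ n ^ u :=
    (Nat.factorial_le_pow u).trans (Nat.pow_le_pow_left hun u)
  have hmain : n ^ ((A - 2) * u) ≤ Nat.card (Gam p Y) := by
    have h1 : n ^ ((A - 1) * u) ≤ n ^ u * Nat.card (Gam p Y) := by
      calc n ^ ((A - 1) * u) = (n ^ (A - 1)) ^ u := pow_mul _ _ _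
        _ ≤ (Nat.primeCounting Y) ^ u := Nat.pow_le_pow_left hpi u
        _ ≤ u.factorial * Nat.card (Gam p Y) := hcnt
        _ ≤ n ^ u * Nat.card (Gam p Y) := Nat.mul_le_mul_right _ hfac
    have h2 : n ^ ((A - 1) * u) = n ^ u * n ^ ((A - 2) * u) := by
      rw [← pow_add]; congr 1
      have : A - 1 = (A - 2) + 1 := by omega
      rw [this]; ring
    rw [h2] at h1
    exact Nat.le_of_mul_le_mul_left h1 (Nat.pow_pos (by omega))
  have hn0 : (1 : ℝ) ≤ n := by exact_mod_cast hn1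
  calc (p : ℝ) ^ (1 - ε) ≤ ((n : ℝ) ^ ((A * (u + 1) : ℕ) : ℝ)) ^ (1 - ε) := by
        apply Real.rpow_le_rpow (by positivity) _ (by linarith)
        rw [Real.rpow_natCast, pow_mul]
        exact_mod_cast hpu
    _ = (n : ℝ) ^ (((A * (u + 1) : ℕ) : ℝ) * (1 - ε)) := by
        rw [← Real.rpow_mul (by positivity)]
    _ ≤ (n : ℝ) ^ (((A - 2) * u : ℕ) : ℝ) := by
        apply Real.rpow_le_rpow_of_exponent_le hn0
        have h1 : (((A - 2) * u : ℕ) : ℝ) = ((A : ℝ) - 2) * u := by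
          rw [Nat.cast_mul, Nat.cast_sub hA2]; norm_num
        rw [h1]
        push_cast
        have huA' : (A : ℝ) ≤ u := by exact_mod_cast huA
        have hu0 : (0 : ℝ) ≤ u := by positivity
        have hA0 : (0 : ℝ) ≤ A := by positivity
        have h2 : 2 * (u : ℝ) ≤ ((A : ℝ) * ε - 2) * u :=
          mul_le_mul_of_nonneg_right (by linarith) hu0
        nlinarith
    _ = ((n ^ ((A - 2) * u) : ℕ) : ℝ) := by
        rw [Real.rpow_natCast]; push_cast; rfl
    _ ≤ _ := by exact_mod_cast hmain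

/-- SIZ. For every prime `p` the group generated by `1, …, (size p)^A` is large. -/
theorem Gam_large (ε : ℝ) (hε : 0 < ε) : ∃ A₀ : ℕ, ∀ A : ℕ, A₀ ≤ A → ∃ p₀ : ℕ, ∀ p : ℕ, p₀ ≤ p →
    p.Prime → (p : ℝ) ^ (1 - ε) ≤ (Nat.card (Gam p (p.size ^ A)) : ℝ) :=
  siz_core (fun p Y u _ hY hu => card_Gam_ge hY hu) ε hε

end Pool.Agent.H595R2.PR
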