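import Mathlib
import Pool.Agent.H595R2.PR.Gam

/-! Stubs of project PR (candidate lists for primitive roots). -/

namespace Pool.Agent.H595R2.PR

open Finset

/-- ALG. In a finite cyclic group let `Γ` be generated by `t 0, …, t (m-1)`, `b l` of order
`l ^ v_l(|Γ|)` for the primes `l ≤ L`, and let the prime factors of `E` be `≤ L`, with
`l ^ v_l(|Γ|) ∣ E`.  Then `(∏_{l ≤ L} b l) * (∏_i t i ^ (a ^ i)) ^ E` has order `|Γ|`
for all but `(m-1) * #{l > L : l ∣ |Γ|}` of the `a < L`. -/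
theorem main_alg {G : Type} [CommGroup G] [Finite G] [IsCyclic G] (t : ℕ → G) (m L : ℕ)
    (Γ : Subgroup G) (hΓ : Γ = Subgroup.closure (t '' Set.Iio m)) (b : ℕ → G)
    (hb : ∀ l, l.Prime → l ≤ L → orderOf (b l) = l ^ (Nat.card Γ).factorization l)
    (E : ℕ) (hE : ∀ l, l.Prime → l ≤ L → l ^ (Nat.card Γ).factorization l ∣ E)
    (hE' : ∀ l, l.Prime → l ∣ E → l ≤ L) :
    #{a ∈ range L | orderOf ((∏ l ∈ (range (L + 1)).filter Nat.Prime, b l) *
        (∏ i ∈ range m, t i ^ (a ^ i)) ^ E) ≠ Nat.card Γ} ≤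
      (m - 1) * #{l ∈ (Nat.card Γ).primeFactors | L < l} := by
  sorry

open Classical in
/-- SEL. Selection of an element of maximal order in the `l`-part. -/
theorem best_alg {G : Type} [CommGroup G] [Finite G] [IsCyclic G] (t : ℕ → G) (m n l M : ℕ)
    (Γ : Subgroup G) (hΓ : Γ = Subgroup.closure (t '' Set.Iio m)) (hl : l.Prime)
    (hn : Nat.card G < 2 ^ n) (hM : M = Nat.card G / l ^ (Nat.card G).factorization l) :
    orderOf (((List.range m).map fun i => t i ^ M).foldl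
      (fun b x => if (∃ k ≤ n, b ^ (l ^ k) = 1 ∧ x ^ (l ^ k) ≠ 1) then x else b) 1) =
      l ^ (Nat.card Γ).factorization l := by
  sorry

/-- POW -/
theorem pw_eq (p b e : ℕ) : pw p b e = md p (b ^ e) := by
  sorry

/-- STR -/
theorem strip_eq {l n N : ℕ} (hl : l.Prime) (hN : 0 < N) (hn : N < 2 ^ n) :
    strip l n N = N / l ^ N.factorization l := by
  sorry

/-- ISP -/
theorem isPr_iff (l : ℕ) : isPr l = true ↔ l.Prime := by
  sorry

/-- COR. The candidate, as an element of the group `(ℤ/p)ˣ`. -/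
theorem cand_eq {p n L Y : ℕ} [Fact p.Prime] (hY : Y < p) (hn : p < 2 ^ n) :
    ∃ (t : ℕ → (ZMod p)ˣ) (b : ℕ → (ZMod p)ˣ) (E : ℕ),
      (∀ i < Y, ((t i : (ZMod p)ˣ) : ZMod p) = ((i + 1 : ℕ) : ZMod p)) ∧
      Gam p Y = Subgroup.closure (t '' Set.Iio Y) ∧
      (∀ l, l.Prime → l ≤ L → orderOf (b l) = l ^ (Nat.card (Gam p Y)).factorization l) ∧
      (∀ l, l.Prime → l ≤ L → l ^ (Nat.card (Gam p Y)).factorization l ∣ E) ∧
      (∀ l, l.Prime → l ∣ E → l ≤ L) ∧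
      ∀ a, ((cand p n L Y a : ℕ) : ZMod p) =
        (((∏ l ∈ (range (L + 1)).filter Nat.Prime, b l) *
          (∏ i ∈ range Y, t i ^ (a ^ i)) ^ E : (ZMod p)ˣ) : ZMod p) := by
  sorry

/-- POL. The list of candidates is computable in polynomial time (Turing machines). -/
theorem poly_cands (A C : ℕ) : NPC.Poly (fun p : ℕ => cands A C p) := by
  sorry

/-- CNT. Smooth numbers in `Γ`. -/
theorem card_Gam_ge {p Y u : ℕ} [Fact p.Prime] (hY : Y < p) (hu : Y ^ u < p) :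
    (Nat.primeCounting Y) ^ u ≤ u.factorial * Nat.card (Gam p Y) := by
  sorry

/-- SIZ. For every prime `p` the group generated by `1, …, (size p)^A` is large. -/
theorem Gam_large (ε : ℝ) (hε : 0 < ε) : ∃ A₀ : ℕ, ∀ A : ℕ, A₀ ≤ A → ∃ p₀ : ℕ, ∀ p : ℕ, p₀ ≤ p →
    p.Prime → (p : ℝ) ^ (1 - ε) ≤ (Nat.card (Gam p (p.size ^ A)) : ℝ) := by
  sorry

/-- CHI. If `Γ` is not the whole group then some nontrivial character is trivial on `1, …, Y`. -/
theorem exists_char {p Y : ℕ} [Fact p.Prime] (hY : Y < p) (h : Gam p Y ≠ ⊤) :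
    ∃ χ : DirichletCharacter ℂ p, χ ≠ 1 ∧ ∀ i : ℕ, 1 ≤ i → i ≤ Y → χ (i : ZMod p) = 1 := by
  sorry

open Classical in
/-- FEW. For all but `x ^ ε` primes `p ≤ x` it is everything. -/
theorem Gam_top (ε : ℝ) (hε : 0 < ε) : ∃ A₀ : ℕ, ∀ A : ℕ, A₀ ≤ A → ∃ x₀ : ℕ, ∀ x : ℕ, x₀ ≤ x →
    (#{p ∈ range (x + 1) | p.Prime ∧ Gam p (p.size ^ A) ≠ ⊤} : ℝ) ≤ (x : ℝ) ^ ε := by
  sorry

end Pool.Agent.H595R2.PR
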